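import Pool.Agent.Work.MP_768e99_zero.Interface

set_option autoImplicit false

namespace Pool.Agent.Work.MP_768e99_zero

open Pool.Agent.Work.MP_768e99_co Pool.Agent.Work.MP_768e99_pocket
  Pool.Agent.Work.MP_768e99_linear

lemma d0_kap2_ge (e r lam : ℕ) (he : 1 ≤ e) : r ≤ kap2 e r lam := by
  unfold kap2 kapx rob
  have h1 : 1 ≤ 97 * e ^ 2 * (lam + 1) ^ 5 := by
    have : 0 < 97 * e ^ 2 * (lam + 1) ^ 5 := by positivity
    omega
  have h2 : r ≤ 192 * r * (lam + 1) + 1 := by nlinarith [Nat.zero_le (r * lam)]
  calc r ≤ 1 * (192 * r * (lam + 1) + 1) := by omega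
    _ ≤ 97 * e ^ 2 * (lam + 1) ^ 5 * (192 * r * (lam + 1) + 1) := Nat.mul_le_mul_right _ h1

lemma d0_kap2_mono (e lam : ℕ) {r r' : ℕ} (h : r ≤ r') : kap2 e r lam ≤ kap2 e r' lam := by
  unfold kap2 kapx rob
  gcongr

lemma d0_sepn_symm {V : Type} [Fintype V] {G : SimpleGraph V} {A T B : Finset V}
    (h : Sepn G A T B) : Sepn G B T A := by
  obtain ⟨h1, h2, h3, h4, h5, h6, h7⟩ := h
  refine ⟨h2, h1, h5.symm, h4.symm, h3.symm, ?_, ?_⟩
  · intro v
    rcases h6 v with h | h | h
    · exact Or.inr (Or.inr h)
    · exact Or.inr (Or.inl h)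
    · exact Or.inl h
  · intro a ha b hb hab
    exact h7 b hb a ha hab.symm

theorem D0 : T_D0 := by
  classical
  intro hTR hDE hMD hGL hRO hPL hT2
  have key : ∀ n : ℕ, ∀ (V : Type) [Fintype V] (G : SimpleGraph V) (r s : ℕ),
      Fintype.card V = n → 1 ≤ r →
      64 * kap2 1 (2 * (5 * kap2 4 r (20 * (Nat.log 2 s + 1)) + 2)) (20 * (Nat.log 2 s + 1)) + 64
        ≤ s → ¬ HasBicliqueMinor G r s → G.Colorable (r + s - 1) := by
    intro n
    induction n using Nat.strong_induction_on with
    | _ n ih =>
      intro V _ G r s hn hr hs hG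
      by_contra hcol
      have hcrit : Crit G r s (r + s - 1) := by
        refine ⟨hG, hcol, ?_⟩
        intro V' _ G' hc hG'
        exact ih _ (by omega) V' G' r s rfl hr hs hG'
      set lam := 20 * (Nat.log 2 s + 1) with hlam
      set b := 5 * kap2 4 r lam + 2 with hb
      -- sizes
      have hr1 : r ≤ kap2 4 r lam := d0_kap2_ge 4 r lam (by norm_num)
      have hb1 : 2 * b ≤ kap2 1 (2 * b) lam := d0_kap2_ge 1 (2 * b) lam (by norm_num)
      have hk1 : 2 ^ 20 ≤ s := by
        refine le_trans ?_ hs
        have h1 : 97 * 21 ^ 5 * 1 ≤ kap2 1 (2 * b) lam := by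
          unfold kap2 kapx rob
          have h2 : 21 ^ 5 ≤ (lam + 1) ^ 5 := Nat.pow_le_pow_left (by omega) 5
          calc 97 * 21 ^ 5 * 1 = 97 * 1 ^ 2 * 21 ^ 5 * 1 := by norm_num
            _ ≤ 97 * 1 ^ 2 * (lam + 1) ^ 5 * (192 * (2 * b) * (lam + 1) + 1) := by
              gcongr
              omega
        omega
      have hne : Nonempty V := by
        by_contra hemp
        rw [not_nonempty_iff] at hemp
        exact hcol ⟨SimpleGraph.Coloring.mk (fun v => (hemp.false v).elim)
          (fun {v} => (hemp.false v).elim)⟩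
      have hdeg := hMD V G r s (r + s - 1) hcrit
      have hclique : ¬ IsMinor (⊤ : SimpleGraph (Fin (r + s))) G := fun h => hG (hT2 V G r s h)
      -- no small separations
      have hsep : ∀ A T B : Finset V, Sepn G A T B → b < T.card := by
        by_contra hcon
        push Not at hcon
        obtain ⟨A₀, T₀, B₀, hS₀, hT₀⟩ := hcon
        have hex : ∃ t : ℕ, ∃ A T B : Finset V, Sepn G A T B ∧ T.card = t :=
          ⟨_, A₀, T₀, B₀, hS₀, rfl⟩
        obtain ⟨A, T, B, hS, hT⟩ := Nat.find_spec hex
        have hmin : ∀ A' T' B' : Finset V, Sepn G A' T' B' → T.card ≤ T'.card := by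
          intro A' T' B' h'
          rw [hT]
          exact Nat.find_min' hex ⟨A', T', B', h', rfl⟩
        have htb : T.card ≤ b := (hmin _ _ _ hS₀).trans hT₀
        have hkap : kap2 1 (2 * T.card) lam ≤ s / 64 := by
          rw [Nat.le_div_iff_mul_le (by norm_num)]
          have := d0_kap2_mono 1 lam (show 2 * T.card ≤ 2 * b by omega)
          omega
        refine hGL V G r s (r + s - 1) A T B hcrit hS ?_ ?_
        · exact hRO V G s (r + s) A T B hk1 (by omega) hclique hS hmin
            (fun v _ => by have := hdeg v; omega) hkap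
        · exact hRO V G s (r + s) B T A hk1 (by omega) hclique (d0_sepn_symm hS) hmin
            (fun v _ => by have := hdeg v; omega) hkap
      obtain ⟨S, hSne, hS1, hS2⟩ : Pocket G ((4 + 1) * s / 4) b :=
        hPL 4 r s (by norm_num) hr (show 5 * kap2 4 r lam ≤ s by omega) V G hG
      have hall : ∀ v, v ∈ S ∨ v ∈ nb G S := by
        by_contra hcon
        push Not at hcon
        obtain ⟨v, hv1, hv2⟩ := hcon
        have hsp : Sepn G S (nb G S) (Finset.univ.filter (fun v => v ∉ S ∧ v ∉ nb G S)) := by
          refine ⟨hSne, ⟨v, Finset.mem_filter.2 ⟨Finset.mem_univ _, hv1, hv2⟩⟩, ?_, ?_, ?_,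
            ?_, ?_⟩
          · rw [Finset.disjoint_left]
            intro x hx hx'
            exact (mem_nb.1 hx').1 hx
          · rw [Finset.disjoint_left]
            intro x hx hx'
            exact (Finset.mem_filter.1 hx').2.1 hx
          · rw [Finset.disjoint_left]
            intro x hx hx'
            exact (Finset.mem_filter.1 hx').2.2 hx
          · intro x
            by_cases h1 : x ∈ S
            · exact Or.inl h1
            · by_cases h2 : x ∈ nb G S
              · exact Or.inr (Or.inl h2)
              · exact Or.inr (Or.inr (Finset.mem_filter.2 ⟨Finset.mem_univ _, h1, h2⟩))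
          · intro x hx y hy hxy
            have hy' := (Finset.mem_filter.1 hy).2
            exact hy'.2 (mem_nb.2 ⟨hy'.1, x, hx, hxy⟩)
        have := hsep _ _ _ hsp
        omega
      have hcard : Fintype.card V ≤ S.card + (nb G S).card := by
        rw [← Finset.card_univ]
        refine le_trans (Finset.card_le_card (t := S ∪ nb G S) ?_) (Finset.card_union_le _ _)
        intro v _
        rw [Finset.mem_union]
        exact hall v
      refine hG (hDE V G r s hr (by omega) ?_ hcol)
      have h4 : 4 * S.card ≤ 5 * s := by omega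
      omega
  intro V _ G r s hr hs hG
  exact key _ V G r s rfl hr hs hG

end Pool.Agent.Work.MP_768e99_zero
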