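import Pool.Agent.Work.MP_768e99_zero.Interface

set_option autoImplicit false

namespace Pool.Agent.Work.MP_768e99_zero

open Pool.Agent.Work.MP_768e99_co Pool.Agent.Work.MP_768e99_pocket
  Pool.Agent.Work.MP_768e99_linear

namespace DENSEaux

/-- a family of disjoint nonadjacent pairs `(v, g v)`, `v ∈ S` -/
structure Fam {V : Type} (G : SimpleGraph V) (S : Finset V) (g : V → V) : Prop where
  inj : Set.InjOn g S
  out : ∀ v ∈ S, g v ∉ S
  nad : ∀ v ∈ S, ¬ G.Adj v (g v)

theorem singleton_conn {V : Type} (G : SimpleGraph V) (x : V) :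
    (G.induce ({x} : Set V)).Connected := by
  have : Nonempty ({x} : Set V) := ⟨⟨x, rfl⟩⟩
  refine ⟨?_⟩
  rintro ⟨a, ha⟩ ⟨b, hb⟩
  have h1 : a = x := ha
  have h2 : b = x := hb
  subst h1
  subst h2
  exact SimpleGraph.Reachable.refl _

theorem biclique_of_sets {V : Type} (G : SimpleGraph V) (r s : ℕ) (R L : Finset V)
    (hR : R.card = r) (hL : L.card = s) (h : ∀ a ∈ R, ∀ b ∈ L, G.Adj a b) :
    HasBicliqueMinor G r s := by
  classical
  have eR : Fin r ≃ R := (Fintype.equivFinOfCardEq (by simpa using hR)).symm
  have eL : Fin s ≃ L := (Fintype.equivFinOfCardEq (by simpa using hL)).symm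
  let f : Fin r ⊕ Fin s → V := Sum.elim (fun i => (eR i : V)) (fun j => (eL j : V))
  have hf : Function.Injective f := by
    rintro (i | i) (j | j) hij
    · have : (eR i : V) = eR j := hij
      rw [eR.injective (Subtype.ext this)]
    · exfalso
      have h1 : (eR i : V) = eL j := hij
      have h2 := h _ (eR i).2 _ (eL j).2
      rw [h1] at h2
      exact h2.ne rfl
    · exfalso
      have h1 : (eL i : V) = eR j := hij
      have h2 := h _ (eR j).2 _ (eL i).2
      rw [h1] at h2
      exact h2.ne rfl
    · have : (eL i : V) = eL j := hij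
      rw [eL.injective (Subtype.ext this)]
  refine ⟨fun w => {f w}, fun w => singleton_conn G _, ?_, ?_⟩
  · intro w w' hw
    rw [Set.disjoint_singleton]
    exact fun h => hw (hf h)
  · rintro (i | i) (j | j) hij
    · simp [completeBipartiteGraph] at hij
    · exact ⟨_, rfl, _, rfl, h _ (eR i).2 _ (eL j).2⟩
    · exact ⟨_, rfl, _, rfl, (h _ (eR j).2 _ (eL i).2).symm⟩
    · simp [completeBipartiteGraph] at hij

theorem colorable_of_fam {V : Type} [Fintype V] {G : SimpleGraph V} {S : Finset V} {g : V → V}
    (h : Fam G S g) : G.Colorable (Fintype.card V - S.card) := by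
  classical
  let α := {v : V // v ∉ S.image g}
  have hex : ∀ v : V, v ∈ S.image g → ∃ w ∈ S, g w = v := fun v hv => by simpa using hv
  choose! p hp using hex
  have hpn : ∀ v, v ∈ S.image g → p v ∉ S.image g := by
    intro v hv hn
    obtain ⟨w, hw, hw'⟩ := Finset.mem_image.1 hn
    exact h.out w hw (hw' ▸ (hp v hv).1)
  let c : V → α := fun v => if hv : v ∈ S.image g then ⟨p v, hpn v hv⟩ else ⟨v, hv⟩
  have hc1 : ∀ v, v ∈ S.image g → (c v : V) = p v := fun v hv => by
    change ((if hv : v ∈ S.image g then (⟨p v, hpn v hv⟩ : α) else ⟨v, hv⟩ : α) : V) = p v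
    rw [dif_pos hv]
  have hc2 : ∀ v, v ∉ S.image g → (c v : V) = v := fun v hv => by
    change ((if hv : v ∈ S.image g then (⟨p v, hpn v hv⟩ : α) else ⟨v, hv⟩ : α) : V) = v
    rw [dif_neg hv]
  have hc : ∀ u v, G.Adj u v → c u ≠ c v := by
    intro u v huv hcc
    have hcc : (c u : V) = c v := congrArg _ hcc
    by_cases hu : u ∈ S.image g
    · by_cases hv : v ∈ S.image g
      · have : p u = p v := by rw [← hc1 u hu, ← hc1 v hv, hcc]
        have h1 : u = v := by rw [← (hp u hu).2, ← (hp v hv).2, this]
        exact huv.ne h1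
      · have : p u = v := by rw [← hc1 u hu, hcc, hc2 v hv]
        have h1 := h.nad (p u) (hp u hu).1
        rw [(hp u hu).2, this] at h1
        exact h1 huv.symm
    · by_cases hv : v ∈ S.image g
      · have : u = p v := by rw [← hc1 v hv, ← hcc, hc2 u hu]
        have h1 := h.nad (p v) (hp v hv).1
        rw [(hp v hv).2, ← this] at h1
        exact h1 huv
      · have : u = v := by rw [← hc2 u hu, hcc, hc2 v hv]
        exact huv.ne this
  have C : G.Coloring α := SimpleGraph.Coloring.mk c (fun {u v} huv => hc u v huv)
  have hcard : Fintype.card α = Fintype.card V - S.card := by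
    rw [Fintype.card_subtype_compl, Fintype.card_coe, Finset.card_image_of_injOn h.inj]
  rw [← hcard]
  exact C.colorable

end DENSEaux

open DENSEaux in
theorem DENSE : T_DENSE := by
  classical
  intro V _ G r s hr hs hcard hcol
  -- maximum family
  obtain ⟨⟨S, g⟩, hSg, hmax⟩ := Finset.exists_max_image
    (Finset.univ.filter (fun q : Finset V × (V → V) => Fam G q.1 q.2)) (fun q => q.1.card)
    ⟨(∅, id), by simp; exact ⟨by simp, by simp, by simp⟩⟩
  have hF : Fam G S g := by simpa using hSg
  have hM : ∀ S' g', Fam G S' g' → S'.card ≤ S.card := fun S' g' h' =>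
    hmax (S', g') (by simpa using h')
  have hmem : ∀ v ∈ S, g v ∈ S.image g := fun v hv => Finset.mem_image_of_mem _ hv
  set I : Finset V := Finset.univ \ (S ∪ S.image g) with hI
  have hIm : ∀ a, a ∈ I ↔ a ∉ S ∧ ∀ v ∈ S, g v ≠ a := by
    intro a
    simp [hI]
  have hdis : Disjoint S (S.image g) := by
    rw [Finset.disjoint_left]
    intro v hv hv'
    obtain ⟨w, hw, hw'⟩ := Finset.mem_image.1 hv'
    exact hF.out w hw (hw' ▸ hv)
  have hcU : (S ∪ S.image g).card = 2 * S.card := by
    rw [Finset.card_union_of_disjoint hdis, Finset.card_image_of_injOn hF.inj]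
    ring
  have hcI : I.card + 2 * S.card = Fintype.card V := by
    rw [hI, ← hcU, Finset.card_sdiff_of_subset (Finset.subset_univ _), Finset.card_univ]
    have := Finset.card_le_univ (S ∪ S.image g)
    omega
  -- the colouring
  have h1 : r + s ≤ Fintype.card V - S.card := by
    by_contra hlt
    exact hcol ((colorable_of_fam hF).mono (by omega))
  -- the clique
  have h2 : ∀ a ∈ I, ∀ b ∈ I, a ≠ b → G.Adj a b := by
    intro a ha b hb hab
    by_contra hn
    obtain ⟨ha1, ha2⟩ := (hIm a).1 ha
    obtain ⟨hb1, hb2⟩ := (hIm b).1 hb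
    have hne : ∀ v ∈ S, v ≠ a := fun v hv h => ha1 (h ▸ hv)
    have : Fam G (insert a S) (Function.update g a b) := by
      refine ⟨?_, ?_, ?_⟩
      · intro x hx y hy hxy
        rcases Finset.mem_insert.1 (Finset.mem_coe.1 hx) with rfl | hx' <;>
          rcases Finset.mem_insert.1 (Finset.mem_coe.1 hy) with rfl | hy'
        · rfl
        · rw [Function.update_self, Function.update_of_ne (hne y hy')] at hxy
          exact absurd hxy.symm (hb2 y hy')
        · rw [Function.update_self, Function.update_of_ne (hne x hx')] at hxy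
          exact absurd hxy (hb2 x hx')
        · rw [Function.update_of_ne (hne y hy'), Function.update_of_ne (hne x hx')] at hxy
          exact hF.inj hx' hy' hxy
      · intro v hv
        rcases Finset.mem_insert.1 hv with rfl | hv'
        · rw [Function.update_self]
          simp [Finset.mem_insert, hab.symm, hb1]
        · rw [Function.update_of_ne (hne v hv')]
          simp only [Finset.mem_insert, not_or]
          exact ⟨ha2 v hv', hF.out v hv'⟩
      · intro v hv
        rcases Finset.mem_insert.1 hv with rfl | hv'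
        · rw [Function.update_self]
          exact hn
        · rw [Function.update_of_ne (hne v hv')]
          exact hF.nad v hv'
    have := hM _ _ this
    rw [Finset.card_insert_of_notMem ha1] at this
    omega
  -- one vertex of each pair
  have h3 : ∀ x ∈ S, ∃ z e : V, (z = x ∨ z = g x) ∧ ∀ a ∈ I, a ≠ e → G.Adj a z := by
    intro x hx
    by_cases hall : ∀ a ∈ I, G.Adj a x
    · exact ⟨x, x, Or.inl rfl, fun a ha _ => hall a ha⟩
    · push Not at hall
      obtain ⟨a, ha, hna⟩ := hall
      refine ⟨g x, a, Or.inr rfl, ?_⟩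
      intro b hb hba
      by_contra hn
      obtain ⟨ha1, ha2⟩ := (hIm a).1 ha
      obtain ⟨hb1, hb2⟩ := (hIm b).1 hb
      -- new pairs (x, a), (b, g x)
      have hxb : x ≠ b := fun h => hb1 (h ▸ hx)
      have hxa : x ≠ a := fun h => ha1 (h ▸ hx)
      set g' : V → V := Function.update (Function.update g x a) b (g x) with hg'
      have gb : g' b = g x := by simp [hg']
      have gx : g' x = a := by
        rw [hg', Function.update_of_ne hxb, Function.update_self]
      have go : ∀ v ∈ S, v ≠ x → g' v = g v := by
        intro v hv hvx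
        have hvb : v ≠ b := fun h => hb1 (h ▸ hv)
        rw [hg', Function.update_of_ne hvb, Function.update_of_ne hvx]
      have : Fam G (insert b S) g' := by
        have key : ∀ v, v ∈ insert b S → v = b ∨ v = x ∨ (v ∈ S ∧ v ≠ x) := by
          intro v hv
          rcases Finset.mem_insert.1 hv with h | h
          · exact Or.inl h
          · by_cases hvx : v = x
            · exact Or.inr (Or.inl hvx)
            · exact Or.inr (Or.inr ⟨h, hvx⟩)
        refine ⟨?_, ?_, ?_⟩
        · intro u hu v hv huv
          rcases key u (Finset.mem_coe.1 hu) with h | h | ⟨h, h'⟩ <;>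
            rcases key v (Finset.mem_coe.1 hv) with k | k | ⟨k, k'⟩
          · rw [h, k]
          · rw [h, k, gb, gx] at huv
            exact absurd huv (ha2 x hx)
          · rw [h, gb, go v k k'] at huv
            exact absurd (hF.inj hx k huv).symm k'
          · rw [h, k, gb, gx] at huv
            exact absurd huv.symm (ha2 x hx)
          · rw [h, k]
          · rw [h, gx, go v k k'] at huv
            exact absurd huv.symm (ha2 v k)
          · rw [k, gb, go u h h'] at huv
            exact absurd (hF.inj h hx huv) h'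
          · rw [k, gx, go u h h'] at huv
            exact absurd huv (ha2 u h)
          · rw [go u h h', go v k k'] at huv
            exact hF.inj h k huv
        · intro v hv
          rcases key v hv with h | h | ⟨h, h'⟩
          · rw [h, gb, Finset.mem_insert, not_or]
            exact ⟨hb2 x hx, hF.out x hx⟩
          · rw [h, gx, Finset.mem_insert, not_or]
            exact ⟨hba.symm, ha1⟩
          · rw [go v h h', Finset.mem_insert, not_or]
            exact ⟨hb2 v h, hF.out v h⟩
        · intro v hv
          rcases key v hv with h | h | ⟨h, h'⟩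
          · rw [h, gb]
            exact hn
          · rw [h, gx]
            exact fun h => hna h.symm
          · rw [go v h h']
            exact hF.nad v h
      have := hM _ _ this
      rw [Finset.card_insert_of_notMem hb1] at this
      omega
  choose! z e hz he using h3
  have hzinj : Set.InjOn z S := by
    intro x hx y hy hxy
    have hx := Finset.mem_coe.1 hx
    have hy := Finset.mem_coe.1 hy
    rcases hz x hx with h | h <;> rcases hz y hy with k | k
    · rw [← h, ← k, hxy]
    · exact absurd (by rw [← h, hxy, k] : x = g y) (fun h' => hF.out y hy (h' ▸ hx))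
    · exact absurd (by rw [← k, ← hxy, h] : y = g x) (fun h' => hF.out x hx (h' ▸ hy))
    · exact hF.inj hx hy (by rw [← h, ← k, hxy])
  have hzI : ∀ x ∈ S, z x ∉ I := by
    intro x hx hI'
    obtain ⟨q1, q2⟩ := (hIm _).1 hI'
    rcases hz x hx with h | h
    · exact q1 (by rw [h]; exact hx)
    · exact q2 x hx h.symm
  -- roots
  have hroots : r ≤ (I \ S.image e).card := by
    have q1 : (S.image e).card ≤ S.card := Finset.card_image_le
    have q2 := Finset.le_card_sdiff (S.image e) I
    omega
  obtain ⟨R, hRsub, hRc⟩ := Finset.exists_subset_card_eq hroots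
  have hRI : R ⊆ I := fun a ha => (Finset.mem_sdiff.1 (hRsub ha)).1
  have hLd : Disjoint (I \ R) (S.image z) := by
    rw [Finset.disjoint_left]
    intro a ha ha'
    obtain ⟨w, hw, hw'⟩ := Finset.mem_image.1 ha'
    exact hzI w hw (hw' ▸ (Finset.mem_sdiff.1 ha).1)
  have hLc : s ≤ ((I \ R) ∪ S.image z).card := by
    rw [Finset.card_union_of_disjoint hLd, Finset.card_image_of_injOn hzinj,
      Finset.card_sdiff_of_subset hRI]
    have q1 := Finset.card_le_card hRI
    omega
  obtain ⟨L, hLsub, hLc'⟩ := Finset.exists_subset_card_eq hLc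
  refine biclique_of_sets G r s R L hRc hLc' ?_
  intro a ha b hb
  have haI := hRI ha
  rcases Finset.mem_union.1 (hLsub hb) with hb' | hb'
  · obtain ⟨hb1, hb2⟩ := Finset.mem_sdiff.1 hb'
    exact h2 a haI b hb1 (fun h => hb2 (h ▸ ha))
  · obtain ⟨w, hw, rfl⟩ := Finset.mem_image.1 hb'
    refine he w hw a haI ?_
    rintro rfl
    exact (Finset.mem_sdiff.1 (hRsub ha)).2 (Finset.mem_image_of_mem _ hw)

end Pool.Agent.Work.MP_768e99_zero
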