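import Pool.Agent.Work.MP_768e99_zero.Interface

set_option autoImplicit false

namespace Pool.Agent.Work.MP_768e99_zero

open Pool.Agent.Work.MP_768e99_co Pool.Agent.Work.MP_768e99_pocket
  Pool.Agent.Work.MP_768e99_linear

namespace GLUEaux

/-- extension of a bijection between two injective images to a permutation -/
theorem exists_perm {T : Type} {k : ℕ} (f g : T → Fin k) (hf : Function.Injective f)
    (hg : Function.Injective g) : ∃ π : Equiv.Perm (Fin k), ∀ t, π (f t) = g t := by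
  classical
  let e : {x // x ∈ Set.range f} ≃ {x // x ∈ Set.range g} :=
    (Equiv.ofInjective f hf).symm.trans (Equiv.ofInjective g hg)
  refine ⟨e.extendSubtype, fun t => ?_⟩
  rw [Equiv.extendSubtype_apply_of_mem e (f t) ⟨t, rfl⟩]
  have h1 : (Equiv.ofInjective f hf).symm ⟨f t, t, rfl⟩ = t := by
    rw [Equiv.symm_apply_eq]
    rfl
  have h2 : e ⟨f t, t, rfl⟩ = ⟨g t, t, rfl⟩ := by
    change (Equiv.ofInjective g hg) ((Equiv.ofInjective f hf).symm ⟨f t, t, rfl⟩) = _
    rw [h1]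
    rfl
  rw [h2]

/-- the side graph: delete `A` and make `T` a clique -/
def side {V : Type} (G : SimpleGraph V) (A T : Finset V) : SimpleGraph {x // x ∉ A} where
  Adj u v := u ≠ v ∧ (G.Adj u v ∨ ((u : V) ∈ T ∧ (v : V) ∈ T))
  symm := ⟨fun _ _ h => ⟨h.1.symm, h.2.imp (fun q => q.symm) (fun q => ⟨q.2, q.1⟩)⟩⟩
  loopless := ⟨fun _ h => h.1 rfl⟩

theorem side_colour (htr : T_TRANS) {V : Type} [Fintype V] {G : SimpleGraph V} {r s k : ℕ}
    {A T B : Finset V} (hc : Crit G r s k) (hs : Sepn G A T B)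
    (hr : RootedClique G ((A : Set V) ∪ T) T) : (side G A T).Colorable k := by
  classical
  obtain ⟨hA, hB, hAT, hAB, hTB, hall, hno⟩ := hs
  obtain ⟨Z, hZ1, hZ2⟩ := hr
  refine hc.2.2 _ _ ?_ ?_
  · obtain ⟨a, ha⟩ := hA
    exact Fintype.card_subtype_lt (x := a) (by simpa using ha)
  · intro hmin
    refine hc.1 (htr _ _ _ _ _ _ hmin ?_)
    let B' : {x // x ∉ A} → Set V := fun u => if (u : V) ∈ T then Z u else {(u : V)}
    have b1 : ∀ u : {x // x ∉ A}, (u : V) ∈ T → B' u = Z u := fun u hu => if_pos hu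
    have b2 : ∀ u : {x // x ∉ A}, (u : V) ∉ T → B' u = {(u : V)} := fun u hu => if_neg hu
    have hmem : ∀ u : {x // x ∉ A}, (u : V) ∈ B' u := by
      intro u
      by_cases hu : (u : V) ∈ T
      · rw [b1 u hu]
        exact (hZ1 u hu).2.1
      · rw [b2 u hu]
        rfl
    -- a vertex outside `A ∪ T` is not in a branch set of `T`
    have hout : ∀ u w : {x // x ∉ A}, (u : V) ∉ T → (w : V) ∈ T → (u : V) ∉ Z w := by
      intro u w hu hw h
      rcases (hZ1 w hw).2.2 h with h' | h'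
      · exact u.2 (by simpa using h')
      · exact hu (by simpa using h')
    refine ⟨B', ?_, ?_, ?_⟩
    · intro u
      by_cases hu : (u : V) ∈ T
      · rw [b1 u hu]
        exact (hZ1 u hu).1.connected
      · rw [b2 u hu]
        exact (Conn.singleton _).connected
    · intro u w huw
      have huw' : (u : V) ≠ w := fun h => huw (Subtype.ext h)
      by_cases hu : (u : V) ∈ T <;> by_cases hw : (w : V) ∈ T
      · rw [b1 u hu, b1 w hw]
        exact (hZ2 u hu w hw huw').1
      · rw [b1 u hu, b2 w hw, Set.disjoint_singleton_right]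
        exact hout w u hw hu
      · rw [b2 u hu, b1 w hw, Set.disjoint_singleton_left]
        exact hout u w hu hw
      · rw [b2 u hu, b2 w hw, Set.disjoint_singleton]
        exact huw'
    · rintro u w ⟨huw, h | ⟨hu, hw⟩⟩
      · exact ⟨u, hmem u, w, hmem w, h⟩
      · have huw' : (u : V) ≠ w := fun h => huw (Subtype.ext h)
        rw [b1 u hu, b1 w hw]
        exact (hZ2 u hu w hw huw').2

end GLUEaux

open GLUEaux in
theorem GLUE : T_GLUE := by
  classical
  intro htr V _ G r s k A T B hc hs hrA hrB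
  have hs' : Sepn G B T A := by
    obtain ⟨hA, hB, hAT, hAB, hTB, hall, hno⟩ := hs
    refine ⟨hB, hA, hTB.symm, hAB.symm, hAT.symm, fun v => ?_, fun b hb a ha h =>
      hno a ha b hb h.symm⟩
    rcases hall v with h | h | h
    · exact Or.inr (Or.inr h)
    · exact Or.inr (Or.inl h)
    · exact Or.inl h
  obtain ⟨cB⟩ := side_colour htr hc hs hrA
  obtain ⟨cA⟩ := side_colour htr hc hs' hrB
  obtain ⟨hA, hB, hAT, hAB, hTB, hall, hno⟩ := hs
  have hTA : ∀ t ∈ T, t ∉ A := fun t ht h => Finset.disjoint_left.1 hAT h ht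
  have hTB' : ∀ t ∈ T, t ∉ B := fun t ht h => Finset.disjoint_left.1 hTB ht h
  have hAB' : ∀ a ∈ A, a ∉ B := fun a ha h => Finset.disjoint_left.1 hAB ha h
  obtain ⟨π, hπ⟩ := exists_perm (T := {x // x ∈ T}) (fun t => cA ⟨t, hTB' t t.2⟩)
    (fun t => cB ⟨t, hTA t t.2⟩)
    (by
      intro t t' h
      by_contra hne
      exact cA.valid (v := ⟨t, hTB' t t.2⟩) (w := ⟨t', hTB' t' t'.2⟩)
        ⟨fun h' => hne (Subtype.ext (by simpa using h')), Or.inr ⟨t.2, t'.2⟩⟩ h)
    (by
      intro t t' h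
      by_contra hne
      exact cB.valid (v := ⟨t, hTA t t.2⟩) (w := ⟨t', hTA t' t'.2⟩)
        ⟨fun h' => hne (Subtype.ext (by simpa using h')), Or.inr ⟨t.2, t'.2⟩⟩ h)
  let c : V → Fin k := fun v =>
    if h : v ∈ A then π (cA ⟨v, hAB' v h⟩) else cB ⟨v, h⟩
  have c1 : ∀ v (h : v ∈ A), c v = π (cA ⟨v, hAB' v h⟩) := fun v h => dif_pos h
  have c2 : ∀ v (h : v ∉ A), c v = cB ⟨v, h⟩ := fun v h => dif_neg h
  -- an edge with one end in `A`
  have key : ∀ u v, u ∈ A → G.Adj u v → c u ≠ c v := by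
    intro u v hu huv
    have hvB : v ∉ B := fun h => hno u hu v h huv
    have hne : (⟨u, hAB' u hu⟩ : {x // x ∉ B}) ≠ ⟨v, hvB⟩ := fun h =>
      huv.ne (by simpa using h)
    have hval := cA.valid (v := ⟨u, hAB' u hu⟩) (w := ⟨v, hvB⟩) ⟨hne, Or.inl huv⟩
    by_cases hv : v ∈ A
    · rw [c1 u hu, c1 v hv]
      exact fun h => hval (π.injective h)
    · have hvT : v ∈ T := by
        rcases hall v with h | h | h
        · exact absurd h hv
        · exact h
        · exact absurd h hvB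
      rw [c1 u hu, c2 v hv, ← hπ ⟨v, hvT⟩]
      exact fun h => hval (π.injective h)
  refine hc.2.1 ⟨SimpleGraph.Coloring.mk c (fun {u v} huv => ?_)⟩
  by_cases hu : u ∈ A
  · exact key u v hu huv
  · by_cases hv : v ∈ A
    · exact (key v u hv huv.symm).symm
    · rw [c2 u hu, c2 v hv]
      exact cB.valid (v := ⟨u, hu⟩) (w := ⟨v, hv⟩)
        ⟨fun h => huv.ne (by simpa using h), Or.inl huv⟩

end Pool.Agent.Work.MP_768e99_zero
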