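import Pool.Agent.Work.MP_768e99_zero.Interface

/-!
# Block MD (helper94): the minimum degree of a minimal counterexample
-/

set_option autoImplicit false

namespace Pool.Agent.Work.MP_768e99_zero

open Pool.Agent.Work.MP_768e99_co Pool.Agent.Work.MP_768e99_pocket
  Pool.Agent.Work.MP_768e99_linear

/-- A minor of an induced subgraph is a minor. -/
theorem md_induce {V W : Type} (H : SimpleGraph W) (G : SimpleGraph V) (S : Set V)
    (h : IsMinor H (G.induce S)) : IsMinor H G := by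
  obtain ⟨B, h1, h2, h3⟩ := h
  refine ⟨fun w => {v | ∃ hv : v ∈ S, (⟨v, hv⟩ : S) ∈ B w}, ?_, ?_, ?_⟩
  · intro w
    let f : (G.induce S).induce (B w) →g G.induce {v | ∃ hv : v ∈ S, (⟨v, hv⟩ : S) ∈ B w} :=
      { toFun := fun x => ⟨x.1.1, x.1.2, x.2⟩
        map_rel' := fun {a b} h => h }
    refine (h1 w).map f ?_
    rintro ⟨v, hv, hB⟩
    exact ⟨⟨⟨v, hv⟩, hB⟩, rfl⟩
  · intro w w' hww
    have := h2 w w' hww
    rw [Set.disjoint_left] at this ⊢
    rintro v ⟨hv, hB⟩ ⟨hv', hB'⟩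
    exact this hB hB'
  · intro w w' hadj
    obtain ⟨x, hx, y, hy, hxy⟩ := h3 w w' hadj
    exact ⟨x.1, ⟨x.2, hx⟩, y.1, ⟨y.2, hy⟩, hxy⟩

theorem MD : T_MD := by
  classical
  intro V _ G r s k hcrit v
  obtain ⟨h1, h2, h3⟩ := hcrit
  by_contra hlt
  push Not at hlt
  apply h2
  let S : Set V := {w | w ≠ v}
  have hcardS : Fintype.card S < Fintype.card V := by
    refine Fintype.card_subtype_lt (x := v) ?_
    simp [S]
  obtain ⟨c⟩ := h3 S (G.induce S) hcardS (fun h => h1 (md_induce _ _ S h))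
  -- colours of the neighbours
  let U : Set (Fin k) := (fun w => if h : w ∈ S then c ⟨w, h⟩ else ⟨0, by omega⟩) '' {w | G.Adj v w}
  have hU : U.ncard < k := lt_of_le_of_lt (Set.ncard_image_le (Set.toFinite _)) hlt
  obtain ⟨a, ha⟩ : ∃ a, a ∉ U := by
    by_contra hcon
    push Not at hcon
    have hUu : U = Set.univ := Set.eq_univ_of_forall hcon
    rw [hUu, Set.ncard_univ, Nat.card_eq_fintype_card, Fintype.card_fin] at hU
    exact lt_irrefl _ hU
  have haw : ∀ w (hw : w ∈ S), G.Adj v w → c ⟨w, hw⟩ ≠ a := by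
    intro w hw hadj he
    exact ha ⟨w, hadj, by simp only [hw, dif_pos]; exact he⟩
  refine ⟨⟨fun w => if h : w ∈ S then c ⟨w, h⟩ else a, ?_⟩⟩
  intro x y hxy
  rw [SimpleGraph.top_adj]
  by_cases hx : x ∈ S
  · by_cases hy : y ∈ S
    · simp only [hx, hy, dif_pos]
      exact c.valid (v := ⟨x, hx⟩) (w := ⟨y, hy⟩) hxy
    · have hyv : y = v := by simpa [S] using hy
      subst hyv
      simp only [hx, dif_pos, hy, dif_neg, not_false_eq_true]
      exact haw x hx hxy.symm
  · have hxv : x = v := by simpa [S] using hx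
    subst hxv
    have hy : y ∈ S := fun h => hxy.ne h.symm
    simp only [hx, dif_pos, hy, dif_neg, not_false_eq_true]
    exact (haw y hy hxy).symm

end Pool.Agent.Work.MP_768e99_zero
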