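import Pool.Agent.Work.MP_768e99_zero.Interface
import Pool.Agent.Work.MP_216d61_lc_full.MEN

/-!
# Stage 3, block MEN (helper24): Menger's theorem rooted at all of `P`
-/

set_option autoImplicit false

namespace Pool.Agent.Work.MP_768e99_zero

open Relation

namespace MenAux

/-- the two notions of connected sets agree -/
lemma conn_to {V : Type*} {G : SimpleGraph V} {S : Set V}
    (h : Pool.Agent.Work.MP_768e99_co.Conn G S) : Pool.Agent.Work.MP_216d61_lc.Conn G S := by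
  refine ⟨h.1, ?_⟩
  intro x hx y hy
  have := h.2 {z | z ∈ S ∧ ReflTransGen (fun a b => G.Adj a b ∧ a ∈ S ∧ b ∈ S) x z}
    (fun z hz => hz.1) ⟨x, hx, ReflTransGen.refl⟩
    (fun a ha b hb hab => ⟨hb, ha.2.tail ⟨hab, ha.1, hb⟩⟩)
  exact (this hy).2

lemma conn_of {V : Type*} {G : SimpleGraph V} {S : Set V}
    (h : Pool.Agent.Work.MP_216d61_lc.Conn G S) : Pool.Agent.Work.MP_768e99_co.Conn G S := by
  refine ⟨h.1, ?_⟩
  rintro T hT ⟨t, ht⟩ hc y hy
  have h1 := h.2 t (hT ht) y hy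
  clear hy
  induction h1 with
  | refl => exact ht
  | tail _ h ih => exact hc _ ih _ h.2.2 h.1

/-- shrinking a connected set so that it meets `Q` in one vertex -/
lemma shrink {V : Type*} {G : SimpleGraph V} {D Q : Set V} {w : V}
    (h : Pool.Agent.Work.MP_216d61_lc.Conn G D) (hw : w ∈ D) (hQ : (D ∩ Q).Nonempty) :
    ∃ D' ⊆ D, Pool.Agent.Work.MP_768e99_co.Conn G D' ∧ w ∈ D' ∧ ∃ q, D' ∩ Q = {q} := by
  by_cases hwQ : w ∈ Q
  · refine ⟨{w}, by simpa using hw, Pool.Agent.Work.MP_768e99_co.Conn.singleton w, rfl, w, ?_⟩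
    ext z
    simp only [Set.mem_inter_iff, Set.mem_singleton_iff]
    exact ⟨fun h => h.1, fun h => ⟨h, h ▸ hwQ⟩⟩
  · obtain ⟨q0, hq0, hq0Q⟩ := hQ
    have hwS : w ∈ D \ Q := ⟨hw, hwQ⟩
    set C : Set V := {y | Pool.Agent.Work.MP_216d61_lc.Lnk G (D \ Q) w y} with hC
    have hCc : Pool.Agent.Work.MP_216d61_lc.Conn G C :=
      Pool.Agent.Work.MP_216d61_lc.MenAux.conn_cmp hwS
    have hCS : C ⊆ D \ Q := fun y hy => Pool.Agent.Work.MP_216d61_lc.MenAux.lnk_right hy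
    have hwC : w ∈ C := Pool.Agent.Work.MP_216d61_lc.MenAux.lnk_refl hwS
    have hq0C : q0 ∉ C := fun hq => (hCS hq).2 hq0Q
    obtain ⟨a, b, ha, hb, hab, haD, hbD⟩ := Pool.Agent.Work.MP_216d61_lc.MenAux.lnk_cross
      (Pool.Agent.Work.MP_216d61_lc.MenAux.conn_lnk h hw hq0) hwC hq0C
    have hbQ : b ∈ Q := by
      by_contra hbQ
      exact hb (Pool.Agent.Work.MP_216d61_lc.MenAux.lnk_step ha hab ⟨hbD, hbQ⟩)
    refine ⟨C ∪ {b}, ?_, ?_, Or.inl hwC, b, ?_⟩
    · rintro z (hz | hz)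
      · exact (hCS hz).1
      · rw [Set.mem_singleton_iff] at hz
        exact hz ▸ hbD
    · refine (conn_of hCc).union ?_
      intro x hx
      rw [Set.mem_singleton_iff] at hx
      subst hx
      exact ⟨a, ha, hab.symm⟩
    · ext z
      simp only [Set.mem_inter_iff, Set.mem_union, Set.mem_singleton_iff]
      constructor
      · rintro ⟨hz | hz, hzQ⟩
        · exact absurd hzQ (hCS hz).2
        · exact hz
      · rintro rfl
        exact ⟨Or.inr rfl, hbQ⟩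

end MenAux

theorem MEN : T_MEN := by
  intro V _ G U P Q hP hQ hsep
  have hmen := Pool.Agent.Work.MP_216d61_lc.stmt_MEN V G U P Q P.ncard (Set.toFinite _) hP hQ (by
    intro Z hZ hZk
    obtain ⟨C, hCU, hC, ⟨x, hxC, hxP⟩, ⟨y, hyC, hyQ⟩⟩ := hsep Z hZ hZk
    exact ⟨x, hxP, y, hyQ, Pool.Agent.Work.MP_216d61_lc.MenAux.lnk_mono hCU
      (Pool.Agent.Work.MP_216d61_lc.MenAux.conn_lnk (MenAux.conn_to hC) hxC hyC)⟩)
  obtain ⟨D, hDU, hDc, hDd, hDP, hDQ⟩ := hmen
  choose p hp using hDP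
  have hpinj : Function.Injective p := by
    intro i j hij
    by_contra hne
    exact Set.disjoint_left.1 (hDd i j hne) (hp i).1 (hij ▸ (hp j).1)
  have hrange : Set.range p = P := by
    apply Set.eq_of_subset_of_ncard_le
    · rintro _ ⟨i, rfl⟩
      exact (hp i).2
    · rw [Set.ncard_range_of_injective hpinj]
      simp
    · exact Set.toFinite _
  have hidx : ∀ w : V, ∃ D' : Set V, w ∈ P → ∃ i, p i = w ∧ D' ⊆ D i ∧
      Pool.Agent.Work.MP_768e99_co.Conn G D' ∧ w ∈ D' ∧ ∃ q, D' ∩ Q = {q} := by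
    intro w
    by_cases hw : w ∈ P
    · rw [← hrange] at hw
      obtain ⟨i, rfl⟩ := hw
      obtain ⟨D', h1, h2, h3, h4⟩ := MenAux.shrink (hDc i) (hp i).1 (hDQ i)
      exact ⟨D', fun _ => ⟨i, rfl, h1, h2, h3, h4⟩⟩
    · exact ⟨∅, fun h => absurd h hw⟩
  choose E hE using hidx
  refine ⟨E, ?_, ?_⟩
  · intro w hw
    obtain ⟨i, _, h2, h3, h4, h5⟩ := hE w hw
    exact ⟨h3, h4, h2.trans (hDU i), h5⟩
  · intro w hw w' hw' hne
    obtain ⟨i, h1, h2, _⟩ := hE w hw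
    obtain ⟨j, h1', h2', _⟩ := hE w' hw'
    have hij : i ≠ j := by
      rintro rfl
      exact hne (h1.symm.trans h1')
    exact (hDd i j hij).mono h2 h2'

end Pool.Agent.Work.MP_768e99_zero
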