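import Pool.Agent.Work.MP_768e99_zero.Interface

set_option autoImplicit false

namespace Pool.Agent.Work.MP_768e99_zero

open Pool.Agent.Work.MP_768e99_co Pool.Agent.Work.MP_768e99_pocket
  Pool.Agent.Work.MP_768e99_linear

lemma root_kap2_ge (e r lam : ℕ) (he : 1 ≤ e) : r ≤ kap2 e r lam := by
  unfold kap2 kapx rob
  have h1 : 1 ≤ 97 * e ^ 2 * (lam + 1) ^ 5 := by
    have : 0 < 97 * e ^ 2 * (lam + 1) ^ 5 := by positivity
    omega
  have h2 : r ≤ 192 * r * (lam + 1) + 1 := by nlinarith [Nat.zero_le (r * lam)]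
  calc r ≤ 1 * (192 * r * (lam + 1) + 1) := by omega
    _ ≤ 97 * e ^ 2 * (lam + 1) ^ 5 * (192 * r * (lam + 1) + 1) := Nat.mul_le_mul_right _ h1

lemma root_conn_of_connected {V : Type} {G : SimpleGraph V} {S : Set V}
    (h : (G.induce S).Connected) : Conn G S := by
  refine ⟨?_, ?_⟩
  · obtain ⟨x⟩ := h.nonempty
    exact ⟨x, x.2⟩
  · rintro T hT ⟨t, ht⟩ hc y hy
    obtain ⟨p⟩ := h.preconnected ⟨t, hT ht⟩ ⟨y, hy⟩
    have key : ∀ (a b : S) (p : (G.induce S).Walk a b), a.1 ∈ T → b.1 ∈ T := by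
      intro a b p
      induction p with
      | nil => exact id
      | cons hadj _ ih => intro ha; exact ih (hc _ ha _ (Subtype.property _) hadj)
    exact key _ _ p ht

lemma root_conn_image {V W : Type} {G : SimpleGraph V} {H : SimpleGraph W} {f : W → V}
    (hf : ∀ a b, H.Adj a b → G.Adj (f a) (f b)) {S : Set W} (h : Conn H S) :
    Conn G (f '' S) := by
  refine ⟨h.1.image f, ?_⟩
  rintro T hT ⟨t, ht⟩ hc
  obtain ⟨x, hx, rfl⟩ := hT ht
  have h2 := h.2 (S ∩ f ⁻¹' T) Set.inter_subset_left ⟨x, hx, ht⟩ (by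
    rintro a ⟨ha, haT⟩ c hcS hac
    exact ⟨hcS, hc _ haT _ ⟨c, hcS, rfl⟩ (hf _ _ hac)⟩)
  rintro y ⟨a, ha, rfl⟩
  exact (h2 ha).2

lemma root_conn_union {V : Type} {G : SimpleGraph V} {S T : Set V} (hS : Conn G S)
    (hT : Conn G T) {x y : V} (hx : x ∈ S) (hy : y ∈ T) (hxy : G.Adj x y) :
    Conn G (S ∪ T) := by
  refine ⟨hS.1.mono Set.subset_union_left, ?_⟩
  intro R hR hne hc
  -- if `R` meets `S` then it contains `S`
  have h1 : (R ∩ S).Nonempty → S ⊆ R := by
    intro hm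
    have := hS.2 (R ∩ S) Set.inter_subset_right hm (by
      rintro a ⟨ha, haS⟩ c hcS hac
      exact ⟨hc a ha c (Or.inl hcS) hac, hcS⟩)
    exact fun z hz => (this hz).1
  have h2 : (R ∩ T).Nonempty → T ⊆ R := by
    intro hm
    have := hT.2 (R ∩ T) Set.inter_subset_right hm (by
      rintro a ⟨ha, haS⟩ c hcS hac
      exact ⟨hc a ha c (Or.inr hcS) hac, hcS⟩)
    exact fun z hz => (this hz).1
  have h3 : S ⊆ R → T ⊆ R := fun h => h2 ⟨y, hc x (h hx) y (Or.inr hy) hxy, hy⟩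
  have h4 : T ⊆ R → S ⊆ R := fun h => h1 ⟨x, hc y (h hy) x (Or.inl hx) hxy.symm, hx⟩
  obtain ⟨r, hr⟩ := hne
  rcases hR hr with h | h
  · have h5 := h1 ⟨r, hr, h⟩
    exact Set.union_subset h5 (h3 h5)
  · have h5 := h2 ⟨r, hr, h⟩
    exact Set.union_subset (h4 h5) h5

lemma root_minor {V V' W : Type} {G : SimpleGraph V} {G' : SimpleGraph V'} {H : SimpleGraph W}
    {f : V' → V} (hinj : Function.Injective f) (hf : ∀ a b, G'.Adj a b → G.Adj (f a) (f b))
    (h : IsMinor H G') : IsMinor H G := by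
  obtain ⟨B, h1, h2, h3⟩ := h
  refine ⟨fun w => f '' B w, fun w => (root_conn_image hf (root_conn_of_connected (h1 w))).connected,
    fun w w' hw => (Set.disjoint_image_iff hinj).2 (h2 w w' hw), fun w w' hw => ?_⟩
  obtain ⟨x, hx, y, hy, hxy⟩ := h3 w w' hw
  exact ⟨f x, ⟨x, hx, rfl⟩, f y, ⟨y, hy, rfl⟩, hf _ _ hxy⟩

/-- The sets for Menger's theorem. -/
lemma root_menger {V : Type} [Fintype V] (G : SimpleGraph V) (A T B : Finset V)
    (hS : Sepn G A T B) (hmin : ∀ A' T' B' : Finset V, Sepn G A' T' B' → T.card ≤ T'.card)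
    (Q : Set V) (hQA : Q ⊆ A) (hQ : T.card ≤ Q.ncard) (Z : Set V)
    (hZU : Z ⊆ (A : Set V) ∪ T) (hZ : Z.ncard < (T : Set V).ncard) :
    ∃ C : Set V, C ⊆ ((A : Set V) ∪ T) \ Z ∧ Conn G C ∧ (C ∩ (T : Set V)).Nonempty ∧
      (C ∩ Q).Nonempty := by
  classical
  obtain ⟨hA, hB, hAT, hAB, hTB, hcov, hadj⟩ := hS
  by_contra hcon
  push Not at hcon
  let R : Set V := {x | ∃ C : Set V, C ⊆ ((A : Set V) ∪ T) \ Z ∧ Conn G C ∧
    (C ∩ (T : Set V)).Nonempty ∧ x ∈ C}
  have hRU : ∀ x ∈ R, x ∈ (A : Set V) ∪ T ∧ x ∉ Z := by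
    rintro x ⟨C, hC, _, _, hx⟩
    exact hC hx
  have hRQ : ∀ x ∈ R, x ∉ Q := by
    rintro x ⟨C, hC, hCc, hCT, hx⟩ hxQ
    have := hcon C hC hCc hCT
    exact (Set.ext_iff.1 this x).1 ⟨hx, hxQ⟩
  have hRT : ∀ x ∈ T, x ∉ Z → x ∈ R := by
    intro x hx hxZ
    refine ⟨{x}, ?_, Conn.singleton x, ⟨x, rfl, hx⟩, rfl⟩
    rintro y rfl
    exact ⟨Or.inr hx, hxZ⟩
  have hRc : ∀ x ∈ R, ∀ y ∈ (A : Set V) ∪ T, y ∉ Z → G.Adj x y → y ∈ R := by
    rintro x ⟨C, hC, hCc, hCT, hx⟩ y hy hyZ hxy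
    refine ⟨C ∪ {y}, ?_, hCc.union ?_, hCT.mono ?_, Or.inr rfl⟩
    · rintro z (hz | rfl)
      · exact hC hz
      · exact ⟨hy, hyZ⟩
    · rintro z rfl
      exact ⟨x, hx, hxy.symm⟩
    · exact Set.inter_subset_inter_left _ Set.subset_union_left
  rw [Set.ncard_coe_finset] at hZ
  -- the new separation
  let A' : Finset V := Finset.univ.filter (fun x => x ∈ (A : Set V) ∪ T ∧ x ∉ Z ∧ x ∉ R)
  let T' : Finset V := Finset.univ.filter (fun x => x ∈ Z)
  let B' : Finset V := Finset.univ.filter (fun x => x ∈ R ∨ x ∈ B)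
  have mA : ∀ x, x ∈ A' ↔ x ∈ (A : Set V) ∪ T ∧ x ∉ Z ∧ x ∉ R := fun x => by simp [A']
  have mT : ∀ x, x ∈ T' ↔ x ∈ Z := fun x => by simp [T']
  have mB : ∀ x, x ∈ B' ↔ x ∈ R ∨ x ∈ B := fun x => by simp [B']
  have hUB : ∀ x, x ∈ (A : Set V) ∪ T → x ∉ B := by
    rintro x (hx | hx) hxB
    · exact Finset.disjoint_left.1 hAB hx hxB
    · exact Finset.disjoint_left.1 hTB hx hxB
  have hA'A : ∀ x ∈ A', x ∈ A := by
    intro x hx
    obtain ⟨h1, h2, h3⟩ := (mA x).1 hx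
    rcases h1 with h1 | h1
    · exact h1
    · exact absurd (hRT x h1 h2) h3
  have hcardT : T'.card = Z.ncard := by
    rw [← Set.ncard_coe_finset]
    congr 1
    ext x
    simp [mT]
  have hsep : Sepn G A' T' B' := by
    refine ⟨?_, ?_, ?_, ?_, ?_, ?_, ?_⟩
    · -- some vertex of `Q` is not in `Z`
      have : ¬ Q ⊆ Z := fun h => by
        have := Set.ncard_le_ncard h (Set.toFinite Z)
        omega
      obtain ⟨q, hq, hqZ⟩ := Set.not_subset.1 this
      exact ⟨q, (mA q).2 ⟨Or.inl (hQA hq), hqZ, fun h => hRQ q h hq⟩⟩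
    · obtain ⟨x, hx⟩ := hB
      exact ⟨x, (mB x).2 (Or.inr hx)⟩
    · rw [Finset.disjoint_left]
      intro x hx hx'
      exact ((mA x).1 hx).2.1 ((mT x).1 hx')
    · rw [Finset.disjoint_left]
      intro x hx hx'
      rcases (mB x).1 hx' with h | h
      · exact ((mA x).1 hx).2.2 h
      · exact hUB x ((mA x).1 hx).1 h
    · rw [Finset.disjoint_left]
      intro x hx hx'
      have hxZ := (mT x).1 hx
      rcases (mB x).1 hx' with h | h
      · exact (hRU x h).2 hxZ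
      · exact hUB x (hZU hxZ) h
    · intro x
      rw [mA, mT, mB]
      by_cases hxU : x ∈ (A : Set V) ∪ T
      · by_cases h1 : x ∈ Z
        · exact Or.inr (Or.inl h1)
        · by_cases h2 : x ∈ R
          · exact Or.inr (Or.inr (Or.inl h2))
          · exact Or.inl ⟨hxU, h1, h2⟩
      · rcases hcov x with h | h | h
        · exact absurd (Or.inl h) hxU
        · exact absurd (Or.inr h) hxU
        · exact Or.inr (Or.inr (Or.inr h))
    · intro x hx y hy hxy
      rcases (mB y).1 hy with h | h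
      · obtain ⟨h1, h2, h3⟩ := (mA x).1 hx
        exact h3 (hRc y h x h1 h2 hxy.symm)
      · exact hadj x (hA'A x hx) y h hxy
  have := hmin A' T' B' hsep
  omega

theorem ROOT : T_ROOT := by
  classical
  intro hCDS hMEN hSD V _ G s h A T B hs hh hK hS hmin hdeg hkap
  rcases T.eq_empty_or_nonempty with hT0 | hT0
  · subst hT0
    refine ⟨fun _ => ∅, ?_, ?_⟩
    · intro w hw
      simp at hw
    · intro w hw
      simp at hw
  obtain ⟨hA, hB, hAT, hAB, hTB, hcov, hadj⟩ := id hS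
  have hneA : Nonempty ↥(A : Set V) := by
    obtain ⟨a, ha⟩ := hA
    exact ⟨⟨a, ha⟩⟩
  have ht1 : 1 ≤ T.card := hT0.card_pos
  set lam := 20 * (Nat.log 2 s + 1) with hlam
  have hk2 : 2 * T.card ≤ kap2 1 (2 * T.card) lam := root_kap2_ge 1 _ lam (by norm_num)
  -- the graph on `A`
  have hKA : ¬ IsMinor (⊤ : SimpleGraph (Fin h)) (G.induce (A : Set V)) := fun hm =>
    hK (root_minor (f := Subtype.val) Subtype.val_injective (fun a b hab => hab) hm)
  have hdegA : ∀ v : ↥(A : Set V), s ≤ 2 * {w | (G.induce (A : Set V)).Adj v w}.ncard := by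
    intro v
    generalize hN : {w | (G.induce (A : Set V)).Adj v w} = N
    have h1 := hdeg v.1 v.2
    have h2 : {w | G.Adj v.1 w} ⊆ (Subtype.val '' N) ∪ (T : Set V) := by
      rw [← hN]
      intro w hw
      rcases hcov w with hw' | hw' | hw'
      · exact Or.inl ⟨⟨w, hw'⟩, hw, rfl⟩
      · exact Or.inr hw'
      · exact absurd hw (hadj v.1 v.2 w hw')
    have h3 := Set.ncard_le_ncard h2 (Set.toFinite _)
    have h4 := Set.ncard_union_le (Subtype.val '' N) (T : Set V)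
    rw [Set.ncard_image_of_injective _ Subtype.val_injective, Set.ncard_coe_finset] at h4
    omega
  obtain ⟨W, hW1, hW2, hW3⟩ := hSD ↥(A : Set V) (G.induce (A : Set V)) s h hs hh hKA hdegA
  set H := (G.induce (A : Set V)).induce (W : Set ↥(A : Set V)) with hH
  let f : ↥(W : Set ↥(A : Set V)) → V := fun x => x.1.1
  have hfinj : Function.Injective f := fun x y hxy => Subtype.ext (Subtype.ext hxy)
  have hfadj : ∀ a b, H.Adj a b → G.Adj (f a) (f b) := fun a b hab => hab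
  let Q : Set V := Set.range f
  have hQA : Q ⊆ A := by
    rintro _ ⟨x, rfl⟩
    exact x.1.2
  have hcardW : Fintype.card ↥(W : Set ↥(A : Set V)) = W.card := by simp
  have hQcard : Q.ncard = W.card := by
    have : (Set.range f).ncard = Nat.card ↥(W : Set ↥(A : Set V)) := by
      rw [← Set.image_univ, Set.ncard_image_of_injective _ hfinj, Set.ncard_univ]
    rw [← hcardW, ← Nat.card_eq_fintype_card]
    exact this
  -- Menger
  obtain ⟨D, hD1, hD2⟩ := hMEN V G ((A : Set V) ∪ T) (T : Set V) Q Set.subset_union_right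
    (hQA.trans Set.subset_union_left)
    (fun Z hZU hZ => root_menger G A T B hS hmin Q hQA (by rw [hQcard]; omega) Z hZU hZ)
  -- the dominating sets
  have hlamW : W.card < 2 ^ lam := by
    refine hW1.trans ?_
    have h1 : s < 2 ^ (Nat.log 2 s + 1) := Nat.lt_pow_succ_log_self (by norm_num) s
    calc s ^ 20 < (2 ^ (Nat.log 2 s + 1)) ^ 20 := Nat.pow_lt_pow_left h1 (by norm_num)
      _ = 2 ^ lam := by rw [← pow_mul, hlam, mul_comm]
  obtain ⟨Z, hZ1, hZ2, hZ3, -⟩ := hCDS ↥(W : Set ↥(A : Set V)) H 1 (2 * T.card) lam (le_refl 1)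
    (by omega) (by rw [hcardW]; exact hlamW)
    (fun X hX hX' => lt_of_le_of_lt hkap (hW2 X hX hX')) (by rw [hcardW]; omega)
  -- the vertices `q w`
  have hneV : Nonempty V := ⟨hneA.some.1⟩
  have hq : ∀ w, ∃ q, w ∈ T → D w ∩ Q = {q} := by
    intro w
    by_cases hw : w ∈ T
    · obtain ⟨q, hq⟩ := (hD1 w hw).2.2.2
      exact ⟨q, fun _ => hq⟩
    · exact ⟨hneV.some, fun h => absurd h hw⟩
  choose q hq using hq
  have hqD : ∀ w ∈ T, q w ∈ D w := fun w hw => by
    have : q w ∈ D w ∩ Q := by rw [hq w hw]; rfl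
    exact this.1
  have hqQ : ∀ w ∈ T, q w ∈ Q := fun w hw => by
    have : q w ∈ D w ∩ Q := by rw [hq w hw]; rfl
    exact this.2
  -- the good indices
  let bad : Finset (Fin (2 * T.card)) := Finset.univ.filter (fun i => ∃ w ∈ T, q w ∈ f '' Z i)
  let good : Finset (Fin (2 * T.card)) := Finset.univ.filter (fun i => ¬ ∃ w ∈ T, q w ∈ f '' Z i)
  have hbad : bad.card ≤ T.card := by
    have hb : ∀ i, ∃ w, i ∈ bad → w ∈ T ∧ q w ∈ f '' Z i := by
      intro i
      by_cases hi : i ∈ bad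
      · obtain ⟨w, hw, hw'⟩ := (Finset.mem_filter.1 hi).2
        exact ⟨w, fun _ => ⟨hw, hw'⟩⟩
      · exact ⟨hneV.some, fun h => absurd h hi⟩
    choose g hg using hb
    refine Finset.card_le_card_of_injOn g (fun i hi => (hg i hi).1) ?_
    intro i hi j hj hij
    by_contra hne
    have h1 := (hg i hi).2
    have h2 := (hg j hj).2
    rw [hij] at h1
    have := (Set.disjoint_image_iff hfinj).2 (hZ3 i j hne)
    exact Set.disjoint_left.1 this h1 h2
  have hgood : T.card ≤ good.card := by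
    have h1 : bad.card + good.card = Fintype.card (Fin (2 * T.card)) := by
      rw [← Finset.card_univ]
      exact Finset.card_filter_add_card_filter_not _
    rw [Fintype.card_fin] at h1
    omega
  obtain ⟨σ⟩ : Nonempty ({x // x ∈ T} ↪ {x // x ∈ good}) :=
    Function.Embedding.nonempty_of_card_le (by simpa using hgood)
  have hgoodm : ∀ (i : {x // x ∈ good}) (w : V), w ∈ T → q w ∉ f '' Z i.1 := by
    intro i w hw hc
    exact (Finset.mem_filter.1 i.2).2 ⟨w, hw, hc⟩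
  -- a neighbour in the dominating set
  have hnbr : ∀ w ∈ T, ∀ i, ∃ y ∈ f '' Z i, G.Adj (q w) y := by
    intro w hw i
    obtain ⟨x, hx⟩ := hqQ w hw
    obtain ⟨z, hz, hxz⟩ := hZ2 i x
    refine ⟨f z, ⟨z, hz, rfl⟩, ?_⟩
    rw [← hx]
    exact hfadj _ _ hxz
  have himQ : ∀ i, f '' Z i ⊆ Q := by
    rintro i _ ⟨x, _, rfl⟩
    exact ⟨x, rfl⟩
  let E : V → Set V := fun w => if hw : w ∈ T then D w ∪ f '' Z (σ ⟨w, hw⟩).1 else ∅
  have hE : ∀ w (hw : w ∈ T), E w = D w ∪ f '' Z (σ ⟨w, hw⟩).1 := fun w hw => dif_pos hw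
  refine ⟨E, ?_, ?_⟩
  · intro w hw
    rw [Finset.mem_coe] at hw
    rw [hE w hw]
    obtain ⟨h1, h2, h3, -⟩ := hD1 w hw
    refine ⟨?_, Or.inl h2, Set.union_subset h3 ((himQ _).trans (hQA.trans Set.subset_union_left))⟩
    obtain ⟨y, hy, hqy⟩ := hnbr w hw (σ ⟨w, hw⟩).1
    exact root_conn_union h1 (root_conn_image hfadj (hZ1 _)) (hqD w hw) hy hqy
  · intro w hw w' hw' hne
    rw [Finset.mem_coe] at hw hw'
    rw [hE w hw, hE w' hw']
    have hcross : ∀ (w : V) (hw : w ∈ T) (i : {x // x ∈ good}), Disjoint (D w) (f '' Z i.1) := by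
      intro w hw i
      rw [Set.disjoint_left]
      intro x hx hx'
      have h1 : x ∈ D w ∩ Q := ⟨hx, himQ _ hx'⟩
      rw [hq w hw, Set.mem_singleton_iff] at h1
      rw [h1] at hx'
      exact hgoodm i w hw hx'
    refine ⟨?_, ?_⟩
    · rw [Set.disjoint_union_left, Set.disjoint_union_right, Set.disjoint_union_right]
      refine ⟨⟨hD2 w hw w' hw' hne, hcross w hw _⟩, (hcross w' hw' _).symm, ?_⟩
      refine (Set.disjoint_image_iff hfinj).2 (hZ3 _ _ ?_)
      intro heq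
      have := σ.injective (Subtype.ext heq)
      exact hne (congrArg Subtype.val this)
    · obtain ⟨y, hy, hqy⟩ := hnbr w hw (σ ⟨w', hw'⟩).1
      exact ⟨q w, Or.inl (hqD w hw), y, Or.inr hy, hqy⟩

end Pool.Agent.Work.MP_768e99_zero
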