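import Pool.Agent.Work.MP_768e99_zero.Interface

/-!
# Block SD (helper55): small highly connected subgraphs
-/

set_option autoImplicit false

namespace Pool.Agent.Work.MP_768e99_zero

open Pool.Agent.Work.MP_768e99_co Pool.Agent.Work.MP_768e99_pocket
  Pool.Agent.Work.MP_768e99_linear

/-- A minor of an induced subgraph is a minor. -/
theorem sd_induce {V W : Type} (H : SimpleGraph W) (G : SimpleGraph V) (S : Set V)
    (h : IsMinor H (G.induce S)) : IsMinor H G := by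
  obtain ⟨B, h1, h2, h3⟩ := h
  refine ⟨fun w => {v | ∃ hv : v ∈ S, (⟨v, hv⟩ : S) ∈ B w}, ?_, ?_, ?_⟩
  · intro w
    let f : (G.induce S).induce (B w) →g G.induce {v | ∃ hv : v ∈ S, (⟨v, hv⟩ : S) ∈ B w} :=
      { toFun := fun x => ⟨x.1.1, x.1.2, x.2⟩
        map_rel' := fun {a b} h => h }
    refine (h1 w).map f ?_
    rintro ⟨v, hv, hB⟩
    exact ⟨⟨⟨v, hv⟩, hB⟩, rfl⟩
  · intro w w' hww
    have := h2 w w' hww
    rw [Set.disjoint_left] at this ⊢
    rintro v ⟨hv, hB⟩ ⟨hv', hB'⟩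
    exact this hB hB'
  · intro w w' hadj
    obtain ⟨x, hx, y, hy, hxy⟩ := h3 w w' hadj
    exact ⟨x.1, ⟨x.2, hx⟩, y.1, ⟨y.2, hy⟩, hxy⟩

/-- A separation of the induced graph, as a separation of `W`. -/
theorem sd_sep (hN1 : B_N1) (hSD2 : T_SD2) (hSD3 : T_SD3) {V : Type} [Fintype V]
    (G : SimpleGraph V) (s : ℕ) (W : Finset V) (hs : 2 ^ 20 ≤ s) (hmin : MinDns G s W)
    [Fintype ((W : Set V) : Type)]
    (A A₂ : Finset ((W : Set V) : Type)) (hA : A.Nonempty) (hA₂ : A₂.Nonempty)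
    (hmem : ∀ v, v ∈ A₂ ↔ v ∉ A ∧ v ∉ nb (G.induce (W : Set V)) A) :
    (s : ℝ) ^ 2 / 64 + 2 * (psi A.card + psi A₂.card - psi W.card) ≤
      (s : ℝ) / 2 * (nb (G.induce (W : Set V)) A).card ∧
    (s : ℝ) ^ 2 / 64 ≤ (s : ℝ) / 2 * (nb (G.induce (W : Set V)) A).card := by
  classical
  set X := nb (G.induce (W : Set V)) A with hX
  set ι : ((W : Set V) : Type) ↪ V := Function.Embedding.subtype _ with hι
  have hmapmem : ∀ (B : Finset ((W : Set V) : Type)) (v : V),
      v ∈ B.map ι ↔ ∃ h : v ∈ (W : Set V), (⟨v, h⟩ : ((W : Set V) : Type)) ∈ B := by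
    intro B v
    rw [Finset.mem_map]
    constructor
    · rintro ⟨x, hx, rfl⟩
      exact ⟨x.2, hx⟩
    · rintro ⟨h, hx⟩
      exact ⟨⟨v, h⟩, hx, rfl⟩
  have hdis : ∀ B C : Finset ((W : Set V) : Type), (∀ x ∈ B, x ∉ C) →
      Disjoint (B.map ι) (C.map ι) := by
    intro B C h
    rw [Finset.disjoint_left]
    intro v hv hv'
    rw [hmapmem] at hv hv'
    obtain ⟨h1, h2⟩ := hv
    obtain ⟨_, h4⟩ := hv'
    exact h _ h2 h4
  have hXmem : ∀ v, v ∈ X ↔ v ∉ A ∧ ∃ a ∈ A, (G.induce (W : Set V)).Adj a v := by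
    intro v; rw [hX, mem_nb]
  have key := hSD3 hN1 hSD2 V G s W (A.map ι) (X.map ι) (A₂.map ι) hs hmin
    (Finset.map_nonempty.2 hA) (Finset.map_nonempty.2 hA₂)
    (hdis _ _ fun x hx hx' => ((hXmem x).1 hx').1 hx)
    (hdis _ _ fun x hx hx' => ((hmem x).1 hx').1 hx)
    (hdis _ _ fun x hx hx' => ((hmem x).1 hx').2 hx)
    (by
      intro v
      constructor
      · intro hv
        by_cases h1 : (⟨v, hv⟩ : ((W : Set V) : Type)) ∈ A
        · exact Or.inl ((hmapmem _ _).2 ⟨hv, h1⟩)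
        · by_cases h2 : (⟨v, hv⟩ : ((W : Set V) : Type)) ∈ X
          · exact Or.inr (Or.inl ((hmapmem _ _).2 ⟨hv, h2⟩))
          · exact Or.inr (Or.inr ((hmapmem _ _).2 ⟨hv, (hmem _).2 ⟨h1, h2⟩⟩))
      · rintro (h | h | h)
        · exact ((hmapmem _ _).1 h).1
        · exact ((hmapmem _ _).1 h).1
        · exact ((hmapmem _ _).1 h).1)
    (by
      intro a ha b hb hab
      obtain ⟨haW, haA⟩ := (hmapmem _ _).1 ha
      obtain ⟨hbW, hbA⟩ := (hmapmem _ _).1 hb
      have hb2 := (hmem _).1 hbA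
      exact hb2.2 ((hXmem _).2 ⟨hb2.1, ⟨a, haW⟩, haA, hab⟩))
  rw [Finset.card_map, Finset.card_map, Finset.card_map] at key
  exact key

theorem SD : T_SD := by
  classical
  intro hN1 hN2 hN5 hP1 hSD1 hSD2 hSD3 V _ _ G s h hs hh hminor hdeg
  obtain ⟨W, hW⟩ := hSD1 hN1 V G s hs hdeg
  have hW1 : s ≤ 8 * W.card := hW.1.1
  have hspos : 0 < s := by
    have : (0 : ℕ) < 2 ^ 20 := by norm_num
    omega
  have hsR : (0 : ℝ) < (s : ℝ) := by exact_mod_cast hspos
  have hsbig : 1048576 ≤ s := by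
    have : (2 : ℕ) ^ 20 = 1048576 := by norm_num
    omega
  have hcW : Fintype.card ((W : Set V) : Type) = W.card := by simp
  refine ⟨W, ?_, ?_, ?_⟩
  · -- the size
    by_contra hcon
    rw [not_lt] at hcon
    obtain ⟨l, lam, hl, hxl, h12, h50⟩ := hN5 s h W.card hs hh hcon
    have hW0 : 0 < W.card := by omega
    obtain ⟨A, hA1, hA2, hA3⟩ := hP1 ((W : Set V) : Type) (G.induce (W : Set V)) h l lam hl
      (by rw [hcW]; exact hxl) (by rw [hcW]; exact h12)
      (fun hm => hminor (sd_induce _ _ _ hm)) (by rw [hcW]; exact hW0)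
    rw [hcW] at hA1 hA2 hA3
    set X := nb (G.induce (W : Set V)) A with hX
    set A₂ : Finset ((W : Set V) : Type) := Finset.univ.filter (fun v => v ∉ A ∧ v ∉ X) with hA₂
    have hmem : ∀ v, v ∈ A₂ ↔ v ∉ A ∧ v ∉ X := by
      intro v; simp [hA₂]
    have hdis1 : Disjoint A X := by
      rw [Finset.disjoint_left]; intro v hv hv'
      rw [hX, mem_nb] at hv'; exact hv'.1 hv
    have hdis2 : Disjoint (A ∪ X) A₂ := by
      rw [Finset.disjoint_left]; intro v hv hv'
      rw [hmem] at hv'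
      rcases Finset.mem_union.1 hv with h | h
      · exact hv'.1 h
      · exact hv'.2 h
    have hun : (A ∪ X) ∪ A₂ = Finset.univ := by
      ext v
      simp only [Finset.mem_union, Finset.mem_univ, iff_true]
      by_cases h1 : v ∈ A
      · exact Or.inl (Or.inl h1)
      · by_cases h2 : v ∈ X
        · exact Or.inl (Or.inr h2)
        · exact Or.inr ((hmem v).2 ⟨h1, h2⟩)
    have hcard : A.card + X.card + A₂.card = W.card := by
      rw [← hcW, ← Finset.card_univ, ← hun, Finset.card_union_of_disjoint hdis2,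
        Finset.card_union_of_disjoint hdis1]
    have hlR : (1 : ℝ) ≤ (l : ℝ) := by exact_mod_cast hl
    have h50' : 50 * (s : ℝ) * (X.card : ℝ) ≤ psi W.card := by
      have h1 : (l : ℝ) * (X.card : ℝ) ≤
          ((l * h * (1 + 2 * h * l * lam) + W.card : ℕ) : ℝ) := by exact_mod_cast hA3
      have h2 : 50 * (s : ℝ) * ((l : ℝ) * (X.card : ℝ)) ≤ l * psi W.card :=
        (mul_le_mul_of_nonneg_left h1 (by positivity)).trans h50
      have h3 : (l : ℝ) * (50 * (s : ℝ) * (X.card : ℝ)) ≤ l * psi W.card := by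
        calc (l : ℝ) * (50 * (s : ℝ) * (X.card : ℝ)) =
            50 * (s : ℝ) * ((l : ℝ) * (X.card : ℝ)) := by ring
          _ ≤ l * psi W.card := h2
      exact le_of_mul_le_mul_left h3 (by linarith)
    obtain ⟨ha2, hgain⟩ := hN2 A.card A₂.card X.card W.card s (by omega) hW0 hcard hA1 hA2 h50'
    have hA0 : 0 < A.card := by omega
    have key := (sd_sep hN1 hSD2 hSD3 G s W hs hW A A₂ (Finset.card_pos.1 hA0)
      (Finset.card_pos.1 ha2) hmem).1
    rw [← hX] at key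
    have h0 : (0 : ℝ) ≤ (X.card : ℝ) := Nat.cast_nonneg _
    have h1 : (0 : ℝ) < (s : ℝ) ^ 2 / 64 := by positivity
    have h2 : (0 : ℝ) ≤ (s : ℝ) * X.card := by positivity
    nlinarith
  · -- connectivity
    intro A hA hb
    obtain ⟨b, hbA, hbN⟩ := hb
    set X := nb (G.induce (W : Set V)) A with hX
    set A₂ : Finset ((W : Set V) : Type) := Finset.univ.filter (fun v => v ∉ A ∧ v ∉ X) with hA₂
    have hmem : ∀ v, v ∈ A₂ ↔ v ∉ A ∧ v ∉ X := by
      intro v; simp [hA₂]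
    have key := (sd_sep hN1 hSD2 hSD3 G s W hs hW A A₂ hA ⟨b, (hmem b).2 ⟨hbA, hbN⟩⟩ hmem).2
    rw [← hX] at key
    have h1 : (s : ℝ) ≤ 32 * (X.card : ℝ) := by
      have h2 : (s : ℝ) * s ≤ (s : ℝ) * (32 * (X.card : ℝ)) := by nlinarith
      exact le_of_mul_le_mul_left h2 hsR
    have h3 : s ≤ 32 * X.card := by exact_mod_cast h1
    show s / 64 < X.card
    omega
  · omega

end Pool.Agent.Work.MP_768e99_zero
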