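import Pool.Agent.Work.MP_768e99_zero.Interface

set_option autoImplicit false

namespace Pool.Agent.Work.MP_768e99_zero

open Pool.Agent.Work.MP_768e99_co Pool.Agent.Work.MP_768e99_pocket
  Pool.Agent.Work.MP_768e99_linear

lemma ee_univ {V : Type} [Fintype V] (G : SimpleGraph V) :
    ee G (Finset.univ : Finset V) = ∑ v, {w | G.Adj v w}.ncard := by
  classical
  have h1 : {p : V × V | p.1 ∈ (Finset.univ : Finset V) ∧ p.2 ∈ (Finset.univ : Finset V) ∧
      G.Adj p.1 p.2} =
      (((Finset.univ : Finset V).sigma fun v =>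
        (Finset.univ : Finset V).filter fun w => G.Adj v w).image
          fun x : (_ : V) × V => (x.1, x.2) : Finset (V × V)) := by
    ext ⟨a, b⟩
    simp
  unfold ee
  rw [h1, Set.ncard_coe_finset, Finset.card_image_of_injective, Finset.card_sigma]
  · refine Finset.sum_congr rfl fun v _ => ?_
    rw [← Set.ncard_coe_finset]
    congr 1
    ext w
    simp
  · rintro ⟨a, b⟩ ⟨c, d⟩ h
    simp only [Prod.mk.injEq] at h
    obtain ⟨rfl, rfl⟩ := h
    rfl

theorem SD1 : T_SD1 := by
  intro hN V _ _ G s hs hdeg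
  classical
  let P : ℕ → Prop := fun n => ∃ W : Finset V, Dns G s W ∧ W.card = n
  have hP : ∃ n, P n := by
    refine ⟨_, Finset.univ, ⟨?_, ?_⟩, rfl⟩
    · obtain ⟨v⟩ := (inferInstance : Nonempty V)
      have h1 := hdeg v
      have h2 : {w | G.Adj v w}.ncard ≤ (Finset.univ : Finset V).card := by
        rw [← Set.ncard_coe_finset]
        exact Set.ncard_le_ncard (by simp) (Set.toFinite _)
      omega
    · rw [ee_univ]
      have h0 : 0 ≤ psi (Finset.univ : Finset V).card := hN.2.2.2 _
      have h1 : (s : ℝ) / 2 * (Finset.univ : Finset V).card ≤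
          ((∑ v, {w | G.Adj v w}.ncard : ℕ) : ℝ) := by
        push_cast
        calc (s : ℝ) / 2 * (Finset.univ : Finset V).card
            = ∑ v : V, (s : ℝ) / 2 := by
              rw [Finset.sum_const, nsmul_eq_mul]; ring
          _ ≤ ∑ v : V, ({w | G.Adj v w}.ncard : ℝ) := by
              refine Finset.sum_le_sum fun v _ => ?_
              have := hdeg v
              have h3 : (s : ℝ) ≤ 2 * ({w | G.Adj v w}.ncard : ℝ) := by exact_mod_cast this
              linarith
      have h2 : 0 ≤ (s : ℝ) ^ 2 / 64 := by positivity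
      linarith
  obtain ⟨W, hW, hcard⟩ := Nat.find_spec hP
  refine ⟨W, hW, ?_⟩
  intro W' hc hD
  exact Nat.find_min hP (m := W'.card) (by rw [← hcard]; exact hc) ⟨W', hD, rfl⟩

end Pool.Agent.Work.MP_768e99_zero
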