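import Pool.Agent.Work.MP_768e99_zero.Interface

/-! # Block SD2: degrees in a smallest dense set (helper17) -/

set_option autoImplicit false

namespace Pool.Agent.Work.MP_768e99_zero

open Pool.Agent.Work.MP_768e99_co Pool.Agent.Work.MP_768e99_pocket
  Pool.Agent.Work.MP_768e99_linear

theorem sd2_ee_le {V : Type} [Fintype V] (G : SimpleGraph V) (W : Finset V) :
    ee G W ≤ W.card * W.card := by
  classical
  unfold ee
  have h : {p : V × V | p.1 ∈ W ∧ p.2 ∈ W ∧ G.Adj p.1 p.2} ⊆ ((W ×ˢ W : Finset (V × V)) :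
      Set (V × V)) := by
    intro p hp
    rw [Finset.mem_coe, Finset.mem_product]
    exact ⟨hp.1, hp.2.1⟩
  have h2 := Set.ncard_le_ncard h (Finset.finite_toSet _)
  rw [Set.ncard_coe_finset, Finset.card_product] at h2
  exact h2

theorem sd2_ee_erase {V : Type} [Fintype V] [DecidableEq V] (G : SimpleGraph V) (W : Finset V)
    (v : V) : ee G W ≤ ee G (W.erase v) + 2 * {w | w ∈ W ∧ G.Adj v w}.ncard := by
  classical
  unfold ee
  set N : Set V := {w | w ∈ W ∧ G.Adj v w} with hN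
  have hsub : {p : V × V | p.1 ∈ W ∧ p.2 ∈ W ∧ G.Adj p.1 p.2} ⊆
      {p : V × V | p.1 ∈ W.erase v ∧ p.2 ∈ W.erase v ∧ G.Adj p.1 p.2} ∪
        ((fun w => (v, w)) '' N ∪ (fun w => (w, v)) '' N) := by
    rintro ⟨a, b⟩ ⟨ha, hb, hab⟩
    by_cases h1 : a = v
    · subst h1
      exact Or.inr (Or.inl ⟨b, ⟨hb, hab⟩, rfl⟩)
    · by_cases h2 : b = v
      · subst h2
        exact Or.inr (Or.inr ⟨a, ⟨ha, hab.symm⟩, rfl⟩)
      · exact Or.inl ⟨Finset.mem_erase.2 ⟨h1, ha⟩, Finset.mem_erase.2 ⟨h2, hb⟩, hab⟩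
  have h1 := Set.ncard_le_ncard hsub (Set.toFinite _)
  have h2 := Set.ncard_union_le {p : V × V | p.1 ∈ W.erase v ∧ p.2 ∈ W.erase v ∧ G.Adj p.1 p.2}
    ((fun w => (v, w)) '' N ∪ (fun w => (w, v)) '' N)
  have h3 := Set.ncard_union_le ((fun w => (v, w)) '' N) ((fun w => (w, v)) '' N)
  have h4 : ((fun w => (v, w)) '' N).ncard ≤ N.ncard := Set.ncard_image_le (Set.toFinite _)
  have h5 : ((fun w => (w, v)) '' N).ncard ≤ N.ncard := Set.ncard_image_le (Set.toFinite _)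
  omega

theorem SD2 : T_SD2 := by
  intro hN1 V _ G s W hs hmin v hv
  classical
  obtain ⟨hsub, hmono, hle, hnn⟩ := hN1
  obtain ⟨⟨hd1, hd2⟩, hmin⟩ := hmin
  by_contra hcon
  push Not at hcon
  set d := {w | w ∈ W ∧ G.Adj v w}.ncard with hd
  have hsR : (2 : ℝ) ^ 20 ≤ s := by exact_mod_cast hs
  have hcardpos : 0 < W.card := Finset.card_pos.2 ⟨v, hv⟩
  have hcard : (W.erase v).card = W.card - 1 := Finset.card_erase_of_mem hv
  have hcard' : (W.erase v).card + 1 = W.card := by omega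
  have hcardR : ((W.erase v).card : ℝ) + 1 = W.card := by exact_mod_cast hcard'
  have hee := sd2_ee_le G W
  have heeR : (ee G W : ℝ) ≤ (W.card : ℝ) * W.card := by exact_mod_cast hee
  have hd1R : (s : ℝ) ≤ 8 * W.card := by exact_mod_cast hd1
  -- the set `W` is not too small
  have hbig : s ≤ 8 * (W.erase v).card := by
    by_contra hlt
    push Not at hlt
    have hltR : 8 * ((W.erase v).card : ℝ) + 1 ≤ s := by exact_mod_cast hlt
    have hw1 : (W.card : ℝ) ≤ s / 8 + 1 := by linarith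
    have hw2 : (s : ℝ) / 8 ≤ W.card := by linarith
    have hpsi : psi W.card ≤ (W.card : ℝ) := hle W.card
    have h1 : (s : ℝ) / 2 * W.card - (s : ℝ) ^ 2 / 64 - 2 * W.card ≤ (W.card : ℝ) * W.card := by
      linarith
    have hs0 : (0 : ℝ) ≤ s := by positivity
    nlinarith [mul_nonneg (sub_nonneg.2 hw2) (sub_nonneg.2 hw1)]
  refine hmin (W.erase v) (by omega) ⟨hbig, ?_⟩
  have h1 := sd2_ee_erase G W v
  rw [← hd] at h1
  have h1R : (ee G W : ℝ) ≤ ee G (W.erase v) + 2 * d := by exact_mod_cast h1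
  have hconR : 4 * (d : ℝ) + 4 + 1 ≤ s := by exact_mod_cast hcon
  have hpsi1 : psi W.card ≤ psi (W.erase v).card + psi 1 := by
    rw [← hcard']
    exact hsub _ _
  have hpsi2 : psi 1 ≤ ((1 : ℕ) : ℝ) := hle 1
  have hpsi3 : ((1 : ℕ) : ℝ) = 1 := by norm_num
  have hw : (W.card : ℝ) = (W.erase v).card + 1 := hcardR.symm
  rw [hw] at hd2
  linarith

end Pool.Agent.Work.MP_768e99_zero
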