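import Pool.Agent.Work.MP_768e99_zero.Interface

/-!
# Stage 3, block SD3 (helper24): separations of a smallest dense set
-/

set_option autoImplicit false

namespace Pool.Agent.Work.MP_768e99_zero

open Pool.Agent.Work.MP_768e99_co Pool.Agent.Work.MP_768e99_pocket
  Pool.Agent.Work.MP_768e99_linear

namespace SD3Aux

variable {V : Type} [Fintype V]

/-- one side of a separation is large -/
lemma side {G : SimpleGraph V} {s : ℕ} {W A X A₂ Y : Finset V}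
    (hdeg : ∀ v ∈ W, s ≤ 4 * {w | w ∈ W ∧ G.Adj v w}.ncard + 4) (hA : A.Nonempty)
    (hW : ∀ v, v ∈ W ↔ v ∈ A ∨ v ∈ X ∨ v ∈ A₂) (hno : ∀ a ∈ A, ∀ b ∈ A₂, ¬ G.Adj a b)
    (hY : ∀ v, v ∈ Y ↔ v ∈ A ∨ v ∈ X) : s ≤ 4 * Y.card := by
  classical
  obtain ⟨v, hv⟩ := hA
  have h1 := hdeg v ((hW v).2 (Or.inl hv))
  have h2 : {w | w ∈ W ∧ G.Adj v w} ⊆ ((Y.erase v : Finset V) : Set V) := by
    rintro w ⟨hw, hvw⟩
    simp only [Finset.coe_erase, Set.mem_sdiff, Finset.mem_coe, Set.mem_singleton_iff]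
    refine ⟨(hY w).2 ?_, fun h => G.loopless.irrefl v (h ▸ hvw)⟩
    rcases (hW w).1 hw with h | h | h
    · exact Or.inl h
    · exact Or.inr h
    · exact absurd hvw (hno v hv w h)
  have h3 := Set.ncard_le_ncard h2 (Set.toFinite _)
  rw [Set.ncard_coe_finset, Finset.card_erase_of_mem ((hY v).2 (Or.inl hv))] at h3
  have h4 : 0 < Y.card := Finset.card_pos.2 ⟨v, (hY v).2 (Or.inl hv)⟩
  omega

end SD3Aux

theorem SD3 : T_SD3 := by
  classical
  intro hN1 hSD2 V _ G s W A X A₂ hs hM hA hA₂ hAX hAA₂ hXA₂ hW hno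
  have hdeg := hSD2 hN1 V G s W hs hM
  obtain ⟨hadd, hmono, -, -⟩ := hN1
  obtain ⟨⟨-, hden⟩, hmin⟩ := hM
  have hcardW : W.card = A.card + X.card + A₂.card := by
    have : W = (A ∪ X) ∪ A₂ := by
      ext v
      rw [hW v, Finset.mem_union, Finset.mem_union, or_assoc]
    rw [this, Finset.card_union_of_disjoint, Finset.card_union_of_disjoint hAX]
    rw [Finset.disjoint_union_left]
    exact ⟨hAA₂, hXA₂⟩
  have h1 : (A ∪ X).card = A.card + X.card := Finset.card_union_of_disjoint hAX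
  have h2 : (A₂ ∪ X).card = A₂.card + X.card := Finset.card_union_of_disjoint hXA₂.symm
  have hAp := hA.card_pos
  have hA₂p := hA₂.card_pos
  have s1 : s ≤ 4 * (A ∪ X).card :=
    SD3Aux.side hdeg hA hW hno (fun v => by simp)
  have s2 : s ≤ 4 * (A₂ ∪ X).card :=
    SD3Aux.side (A := A₂) (A₂ := A) (X := X) hdeg hA₂
      (fun v => by rw [hW v]; tauto) (fun a ha b hb h => hno b hb a ha h.symm) (fun v => by simp)
  have d1 := hmin (A ∪ X) (by omega)
  have d2 := hmin (A₂ ∪ X) (by omega)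
  have e1 : (ee G (A ∪ X) : ℝ) <
      (s : ℝ) / 2 * (A ∪ X).card - (s : ℝ) ^ 2 / 64 - 2 * psi (A ∪ X).card := by
    by_contra h
    exact d1 ⟨by omega, not_lt.1 h⟩
  have e2 : (ee G (A₂ ∪ X) : ℝ) <
      (s : ℝ) / 2 * (A₂ ∪ X).card - (s : ℝ) ^ 2 / 64 - 2 * psi (A₂ ∪ X).card := by
    by_contra h
    exact d2 ⟨by omega, not_lt.1 h⟩
  have e3 : ee G W ≤ ee G (A ∪ X) + ee G (A₂ ∪ X) := by
    unfold ee
    refine le_trans (Set.ncard_le_ncard (t := {p : V × V | p.1 ∈ A ∪ X ∧ p.2 ∈ A ∪ X ∧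
      G.Adj p.1 p.2} ∪ {p : V × V | p.1 ∈ A₂ ∪ X ∧ p.2 ∈ A₂ ∪ X ∧ G.Adj p.1 p.2}) ?_
      (Set.toFinite _)) (Set.ncard_union_le _ _)
    rintro ⟨a, b⟩ ⟨ha, hb, hab⟩
    dsimp only at ha hb hab
    have hab' : ¬ (a ∈ A ∧ b ∈ A₂) := fun h => hno a h.1 b h.2 hab
    have hba' : ¬ (b ∈ A ∧ a ∈ A₂) := fun h => hno b h.1 a h.2 hab.symm
    have ha' := (hW a).1 ha
    have hb' := (hW b).1 hb
    simp only [Set.mem_union, Set.mem_ofPred_eq, Finset.mem_union]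
    tauto
  have e3' : (ee G W : ℝ) ≤ ee G (A ∪ X) + ee G (A₂ ∪ X) := by exact_mod_cast e3
  rw [h1] at e1
  rw [h2] at e2
  rw [hcardW] at hden
  have m1 : psi A.card ≤ psi (A.card + X.card) := hmono _ _ (by omega)
  have m2 : psi A₂.card ≤ psi (A₂.card + X.card) := hmono _ _ (by omega)
  have m3 : psi W.card ≤ psi (A.card + X.card) + psi (A₂.card + X.card) :=
    (hmono W.card ((A.card + X.card) + (A₂.card + X.card)) (by omega)).trans (hadd _ _)
  rw [hcardW] at m3 ⊢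
  push_cast at hden e1 e2 ⊢
  constructor
  · nlinarith
  · nlinarith

end Pool.Agent.Work.MP_768e99_zero
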