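import Pool.Agent.Work.MP_768e99_zero.Interface
import Pool.Agent.Work.MP_768e99_linear.FinalLin

set_option autoImplicit false

namespace Pool.Agent.Work.MP_768e99_zero

open Pool.Agent.Work.MP_768e99_co Pool.Agent.Work.MP_768e99_pocket
  Pool.Agent.Work.MP_768e99_linear

universe u

/-- The case `d ≥ 1` on a type in the lowest universe. -/
theorem pos_type0 (hC1 : B_C1) (hC2 : B_C2) (hP : PocketLin) (V : Type) [Fintype V]
    (G : SimpleGraph V) (m M d : ℕ) (hm : 1 ≤ m) (hG : ¬ HasBicliqueMinor G m M)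
    (hd : 1 ≤ d) (hM : d + 200000000000000 * m * (Nat.log 2 M + 1) ^ 6 ≤ M) :
    DefColorable G (m + M - 1 - d) d := by
  have hL1 : 1 ≤ Nat.log 2 M + 1 := by omega
  have hk := kap2_le 2 m (Nat.log 2 M + 1) hm hL1
  have hP' := hP 2 m M (by norm_num) hm
  have hlow := kap2_lower 2 m (20 * (Nat.log 2 M + 1)) (by norm_num)
  set L := Nat.log 2 M + 1 with hLdef
  set b := 5 * kap2 2 m (20 * L) + 2 with hbdef
  have hmL : 1 ≤ m * L ^ 6 := Nat.one_le_iff_ne_zero.2 (by positivity)
  have h5b : 5 * b ≤ 200000000000000 * m * L ^ 6 := by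
    have h1 : 1610000000000 * (2 ^ 2 * m * L ^ 6) = 6440000000000 * (m * L ^ 6) := by ring
    rw [h1] at hk
    have h2 : 200000000000000 * m * L ^ 6 = 200000000000000 * (m * L ^ 6) := by ring
    rw [h2]
    omega
  have hb15 : 15 ≤ 5 * b := by
    have : 1 ≤ kap2 2 m (20 * L) := by
      refine le_trans ?_ hlow
      exact Nat.one_le_iff_ne_zero.2 (by positivity)
    omega
  have hpk := hP' (by omega)
  refine hC2 m M _ _ _ d hC1 hpk ?_ ?_ V G hG
  · omega
  · obtain ⟨v, hv⟩ : ∃ v, M = d + 5 * b + v := ⟨M - (d + 5 * b), by omega⟩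
    have h1 : (2 + 1) * M / 2 ≤ (d + 1) * (4 * b + v) := by
      rw [Nat.div_le_iff_le_mul_add_pred (by norm_num)]
      rw [hv]
      obtain ⟨d', rfl⟩ : ∃ d', d = d' + 1 := ⟨d - 1, by omega⟩
      obtain ⟨b', hb'⟩ : ∃ b', b = b' + 3 := ⟨b - 3, by omega⟩
      rw [hb']
      nlinarith [Nat.zero_le (d' * b'), Nat.zero_le (d' * v)]
    refine h1.trans (Nat.mul_le_mul_left _ ?_)
    omega

/-- The case `d = 0` on a type in the lowest universe. -/
theorem zero_type0
    (hD : ∀ (V : Type) [Fintype V] (G : SimpleGraph V) (r s : ℕ), 1 ≤ r →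
      64 * kap2 1 (2 * (5 * kap2 4 r (20 * (Nat.log 2 s + 1)) + 2))
        (20 * (Nat.log 2 s + 1)) + 64 ≤ s →
      ¬ HasBicliqueMinor G r s → G.Colorable (r + s - 1))
    (V : Type) [Fintype V]
    (G : SimpleGraph V) (m M : ℕ) (hm : 1 ≤ m) (hG : ¬ HasBicliqueMinor G m M)
    (hM : 30000000000000000000000000000 * m * (Nat.log 2 M + 1) ^ 12 ≤ M) :
    DefColorable G (m + M - 1) 0 := by
  have hL1 : 1 ≤ Nat.log 2 M + 1 := by omega
  have hk := kap2_le 4 m (Nat.log 2 M + 1) hm hL1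
  have hk2 := kap2_le 1 (2 * (5 * kap2 4 m (20 * (Nat.log 2 M + 1)) + 2)) (Nat.log 2 M + 1)
    (by omega) hL1
  have hD' := hD V G m M hm
  set L := Nat.log 2 M + 1 with hLdef
  have hmL : 1 ≤ m * L ^ 6 := Nat.one_le_iff_ne_zero.2 (by positivity)
  have h1 : 2 * (5 * kap2 4 m (20 * L) + 2) ≤ 258000000000000 * (m * L ^ 6) := by
    have h1 : 1610000000000 * (4 ^ 2 * m * L ^ 6) = 25760000000000 * (m * L ^ 6) := by ring
    rw [h1] at hk
    omega
  have h2 : 1610000000000 * (1 ^ 2 * (2 * (5 * kap2 4 m (20 * L) + 2)) * L ^ 6) ≤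
      415380000000000000000000000 * (m * L ^ 12) := by
    calc 1610000000000 * (1 ^ 2 * (2 * (5 * kap2 4 m (20 * L) + 2)) * L ^ 6) ≤
        1610000000000 * (1 ^ 2 * (258000000000000 * (m * L ^ 6)) * L ^ 6) := by gcongr
      _ = 415380000000000000000000000 * (m * L ^ 12) := by ring
  have hmL' : 1 ≤ m * L ^ 12 := Nat.one_le_iff_ne_zero.2 (by positivity)
  have hcol : G.Colorable (m + M - 1) := hD' (by
    have h3 : 30000000000000000000000000000 * m * L ^ 12 =
      30000000000000000000000000000 * (m * L ^ 12) := by ring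
    rw [h3] at hM
    omega) hG
  obtain ⟨c⟩ := hcol
  refine ⟨c, fun v => ?_⟩
  have : {w | G.Adj v w ∧ c w = c v} = ∅ := by
    ext w
    simp only [Set.mem_ofPred_eq, Set.mem_empty_iff_false, iff_false, not_and]
    intro h h'
    exact c.valid h h'.symm
  rw [this]; simp

/-- **Main theorem.** -/
theorem final_all (hC1 : B_C1) (hC2 : B_C2) (hP : PocketLin)
    (hD : ∀ (V : Type) [Fintype V] (G : SimpleGraph V) (r s : ℕ), 1 ≤ r →
      64 * kap2 1 (2 * (5 * kap2 4 r (20 * (Nat.log 2 s + 1)) + 2))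
        (20 * (Nat.log 2 s + 1)) + 64 ≤ s →
      ¬ HasBicliqueMinor G r s → G.Colorable (r + s - 1))
    {V : Type u} [Finite V]
    (G : SimpleGraph V) (r s d : ℕ) (hr : 1 ≤ r) (hs : 1 ≤ s) (hG : ¬ HasBicliqueMinor G r s)
    (h : d + (if d = 0 then
        30000000000000000000000000000 * min r s * (Nat.log 2 (max r s) + 1) ^ 12
      else 200000000000000 * min r s * (Nat.log 2 (max r s) + 1) ^ 6) ≤ max r s) :
    DefColorable G (r + s - 1 - d) d := by
  obtain ⟨G', hG1, hG2⟩ := transport G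
  have hmin : ¬ HasBicliqueMinor G' (min r s) (max r s) := by
    intro h
    apply hG
    rcases le_total r s with hrs | hrs
    · rw [min_eq_left hrs, max_eq_right hrs] at h
      exact hG1 _ _ h
    · rw [min_eq_right hrs, max_eq_left hrs] at h
      exact biclique_symm (hG1 _ _ h)
  have hrs : min r s + max r s = r + s := min_add_max r s
  apply hG2
  rw [← hrs]
  by_cases hd : d = 0
  · subst hd
    rw [if_pos rfl, zero_add] at h
    exact zero_type0 hD _ G' _ _ (le_min hr hs) hmin h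
  · rw [if_neg hd] at h
    exact pos_type0 hC1 hC2 hP _ G' _ _ d (le_min hr hs) hmin (by omega) h

end Pool.Agent.Work.MP_768e99_zero
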