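import Pool.Agent.Work.MP_768e99_linear.Interface

/-!
# Stage 3: the case `d = 0` (proper colourings)

Every block is one proposition `T_xxx`; the file of block `xxx` (in this folder) proves
`theorem xxx : T_xxx` in the namespace `Pool.Agent.Work.MP_768e99_zero`.
-/

set_option autoImplicit false

namespace Pool.Agent.Work.MP_768e99_zero

open Pool.Agent.Work.MP_768e99_co Pool.Agent.Work.MP_768e99_pocket
  Pool.Agent.Work.MP_768e99_linear

/-- Minors compose. -/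
def T_TRANS : Prop := ∀ (U V W : Type) (G₁ : SimpleGraph U) (G₂ : SimpleGraph V)
  (G₃ : SimpleGraph W), IsMinor G₁ G₂ → IsMinor G₂ G₃ → IsMinor G₁ G₃

/-- **Dense lemma.** A graph with at most `r + 3s/2` vertices which is not
`(r+s-1)`-colourable contains `K_{r,s}` (as a subgraph). Proof: a maximum family of `m` disjoint
nonadjacent pairs; `n - m ≥ r + s`; the set `I` of the other vertices is a clique with
`n - 2 m` elements; from each pair one vertex is adjacent to all vertices of `I` but at most one;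
`r` vertices of `I`, all different from these exceptions, are the roots; the leaves are the rest
of `I` and one vertex of each pair. -/
def T_DENSE : Prop := ∀ (V : Type) [Fintype V] (G : SimpleGraph V) (r s : ℕ), 1 ≤ r → 1 ≤ s →
  2 * Fintype.card V ≤ 2 * r + 3 * s → ¬ G.Colorable (r + s - 1) → HasBicliqueMinor G r s

/-- `G` is a counterexample with the least number of vertices. -/
def Crit {V : Type} [Fintype V] (G : SimpleGraph V) (r s k : ℕ) : Prop :=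
  ¬ HasBicliqueMinor G r s ∧ ¬ G.Colorable k ∧
    ∀ (V' : Type) [Fintype V'] (G' : SimpleGraph V'), Fintype.card V' < Fintype.card V →
      ¬ HasBicliqueMinor G' r s → G'.Colorable k

/-- The minimum degree of a minimal counterexample. -/
def T_MD : Prop := ∀ (V : Type) [Fintype V] (G : SimpleGraph V) (r s k : ℕ), Crit G r s k →
  ∀ v, k ≤ {w | G.Adj v w}.ncard

/-- `(A, T, B)` is a separation. -/
def Sepn {V : Type} [Fintype V] (G : SimpleGraph V) (A T B : Finset V) : Prop :=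
  A.Nonempty ∧ B.Nonempty ∧ Disjoint A T ∧ Disjoint A B ∧ Disjoint T B ∧
    (∀ v, v ∈ A ∨ v ∈ T ∨ v ∈ B) ∧ ∀ a ∈ A, ∀ b ∈ B, ¬ G.Adj a b

/-- A clique minor in `U` rooted at `T`. -/
def RootedClique {V : Type} (G : SimpleGraph V) (U T : Set V) : Prop :=
  ∃ Z : V → Set V, (∀ w ∈ T, Conn G (Z w) ∧ w ∈ Z w ∧ Z w ⊆ U) ∧
    ∀ w ∈ T, ∀ w' ∈ T, w ≠ w' → Disjoint (Z w) (Z w') ∧ ∃ x ∈ Z w, ∃ y ∈ Z w', G.Adj x y

/-- A minimal counterexample has no separation with rooted clique minors on both sides: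
`G[B ∪ T]` with all edges inside `T` is a minor of `G` with fewer vertices, so it has a
`k`-colouring, injective on `T`; the same for `A`; permute the colours and glue. -/
def T_GLUE : Prop := T_TRANS → ∀ (V : Type) [Fintype V] (G : SimpleGraph V) (r s k : ℕ)
  (A T B : Finset V), Crit G r s k → Sepn G A T B →
  RootedClique G ((A : Set V) ∪ T) T → RootedClique G ((B : Set V) ∪ T) T → False

/-- **Menger's theorem** in the form needed: rooted at all of `P`, each set meets `Q` in one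
vertex. (From `stmt_MEN` in Work/MP_216d61_lc_full/MEN.lean, then shrink each set.) -/
def T_MEN : Prop := ∀ (V : Type) [Fintype V] (G : SimpleGraph V) (U P Q : Set V), P ⊆ U →
  Q ⊆ U → (∀ Z : Set V, Z ⊆ U → Z.ncard < P.ncard →
    ∃ C : Set V, C ⊆ U \ Z ∧ Conn G C ∧ (C ∩ P).Nonempty ∧ (C ∩ Q).Nonempty) →
  ∃ D : V → Set V, (∀ w ∈ P, Conn G (D w) ∧ w ∈ D w ∧ D w ⊆ U ∧ ∃ q, D w ∩ Q = {q}) ∧
    ∀ w ∈ P, ∀ w' ∈ P, w ≠ w' → Disjoint (D w) (D w')

/-- The number of ordered pairs of adjacent vertices in `W`. -/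
noncomputable def ee {V : Type} (G : SimpleGraph V) (W : Finset V) : ℕ :=
  {p : V × V | p.1 ∈ W ∧ p.2 ∈ W ∧ G.Adj p.1 p.2}.ncard

/-- Density: `|W| ≥ s/8` and `ee W ≥ (s/2) |W| - s²/64 - 2 |W|^(3/4)`. -/
def Dns {V : Type} (G : SimpleGraph V) (s : ℕ) (W : Finset V) : Prop :=
  s ≤ 8 * W.card ∧ (s : ℝ) / 2 * W.card - (s : ℝ) ^ 2 / 64 - 2 * psi W.card ≤ (ee G W : ℝ)

/-- A smallest dense set. -/
def MinDns {V : Type} (G : SimpleGraph V) (s : ℕ) (W : Finset V) : Prop :=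
  Dns G s W ∧ ∀ W' : Finset V, W'.card < W.card → ¬ Dns G s W'

/-- Minimum degree `s/2` gives a dense set, so a smallest one; its vertices have degrees at
least `s/4 - 1` inside it. -/
def T_SD1 : Prop := B_N1 → ∀ (V : Type) [Fintype V] [Nonempty V] (G : SimpleGraph V) (s : ℕ),
  2 ^ 20 ≤ s → (∀ v, s ≤ 2 * {w | G.Adj v w}.ncard) →
  ∃ W : Finset V, MinDns G s W

def T_SD2 : Prop := B_N1 → ∀ (V : Type) [Fintype V] (G : SimpleGraph V) (s : ℕ)
  (W : Finset V), 2 ^ 20 ≤ s → MinDns G s W →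
  ∀ v ∈ W, s ≤ 4 * {w | w ∈ W ∧ G.Adj v w}.ncard + 4

/-- Separations of a smallest dense set `W = A ∪ X ∪ A₂`. -/
def T_SD3 : Prop := B_N1 → T_SD2 → ∀ (V : Type) [Fintype V] (G : SimpleGraph V) (s : ℕ)
  (W A X A₂ : Finset V), 2 ^ 20 ≤ s → MinDns G s W → A.Nonempty → A₂.Nonempty →
  Disjoint A X → Disjoint A A₂ → Disjoint X A₂ → (∀ v, v ∈ W ↔ v ∈ A ∨ v ∈ X ∨ v ∈ A₂) →
  (∀ a ∈ A, ∀ b ∈ A₂, ¬ G.Adj a b) →
  (s : ℝ) ^ 2 / 64 + 2 * (psi A.card + psi A₂.card - psi W.card) ≤ (s : ℝ) / 2 * X.card ∧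
  (s : ℝ) ^ 2 / 64 ≤ (s : ℝ) / 2 * X.card

/-- **Small highly connected subgraphs** of `K_h`-minor-free graphs of large minimum degree. -/
def T_SD : Prop := B_N1 → B_N2 → B_N5 → B_P1 → T_SD1 → T_SD2 → T_SD3 →
  ∀ (V : Type) [Fintype V] [Nonempty V] (G : SimpleGraph V) (s h : ℕ), 2 ^ 20 ≤ s →
  h ≤ 2 * s → ¬ IsMinor (⊤ : SimpleGraph (Fin h)) G →
  (∀ v, s ≤ 2 * {w | G.Adj v w}.ncard) →
  ∃ W : Finset V, W.card < s ^ 20 ∧ KConn (G.induce (W : Set V)) (s / 64) ∧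
    s / 64 + 2 ≤ W.card

/-- **Rooted clique minors** on one side of a separation of the least order. -/
def T_ROOT : Prop := CDSPacking → T_MEN →
  (∀ (V : Type) [Fintype V] [Nonempty V] (G : SimpleGraph V) (s h : ℕ), 2 ^ 20 ≤ s →
    h ≤ 2 * s → ¬ IsMinor (⊤ : SimpleGraph (Fin h)) G →
    (∀ v, s ≤ 2 * {w | G.Adj v w}.ncard) →
    ∃ W : Finset V, W.card < s ^ 20 ∧ KConn (G.induce (W : Set V)) (s / 64) ∧
      s / 64 + 2 ≤ W.card) →
  ∀ (V : Type) [Fintype V] (G : SimpleGraph V) (s h : ℕ) (A T B : Finset V), 2 ^ 20 ≤ s →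
  h ≤ 2 * s → ¬ IsMinor (⊤ : SimpleGraph (Fin h)) G → Sepn G A T B →
  (∀ A' T' B' : Finset V, Sepn G A' T' B' → T.card ≤ T'.card) →
  (∀ v ∈ A, s + 2 * T.card ≤ 2 * {w | G.Adj v w}.ncard) →
  kap2 1 (2 * T.card) (20 * (Nat.log 2 s + 1)) ≤ s / 64 →
  RootedClique G ((A : Set V) ∪ T) T

/-- **Assembly for `d = 0`.** -/
def T_D0 : Prop := T_TRANS → T_DENSE → T_MD →
  (∀ (V : Type) [Fintype V] (G : SimpleGraph V) (r s k : ℕ)
    (A T B : Finset V), Crit G r s k → Sepn G A T B →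
    RootedClique G ((A : Set V) ∪ T) T → RootedClique G ((B : Set V) ∪ T) T → False) →
  (∀ (V : Type) [Fintype V] (G : SimpleGraph V) (s h : ℕ) (A T B : Finset V), 2 ^ 20 ≤ s →
    h ≤ 2 * s → ¬ IsMinor (⊤ : SimpleGraph (Fin h)) G → Sepn G A T B →
    (∀ A' T' B' : Finset V, Sepn G A' T' B' → T.card ≤ T'.card) →
    (∀ v ∈ A, s + 2 * T.card ≤ 2 * {w | G.Adj v w}.ncard) →
    kap2 1 (2 * T.card) (20 * (Nat.log 2 s + 1)) ≤ s / 64 →
    RootedClique G ((A : Set V) ∪ T) T) →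
  PocketLin → B_T2 →
  ∀ (V : Type) [Fintype V] (G : SimpleGraph V) (r s : ℕ), 1 ≤ r →
    64 * kap2 1 (2 * (5 * kap2 4 r (20 * (Nat.log 2 s + 1)) + 2)) (20 * (Nat.log 2 s + 1)) + 64
      ≤ s → ¬ HasBicliqueMinor G r s → G.Colorable (r + s - 1)

end Pool.Agent.Work.MP_768e99_zero
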