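import Pool.Agent.Work.MP_768e99_zero.Interface

set_option autoImplicit false

namespace Pool.Agent.Work.MP_768e99_zero

open Pool.Agent.Work.MP_768e99_co Pool.Agent.Work.MP_768e99_pocket
  Pool.Agent.Work.MP_768e99_linear

theorem TRANS : T_TRANS := by
  classical
  intro U V W G₁ G₂ G₃ h12 h23
  obtain ⟨B, hB1, hB2, hB3⟩ := h12
  obtain ⟨C, hC1, hC2, hC3⟩ := h23
  let D : U → Set W := fun u => {w | ∃ v ∈ B u, w ∈ C v}
  have hin : ∀ (u : U) (v : V), v ∈ B u → ∀ w ∈ C v, w ∈ D u := fun u v hv w hw => ⟨v, hv, hw⟩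
  refine ⟨D, ?_, ?_, ?_⟩
  · intro u
    have hpre := (hB1 u).preconnected
    obtain ⟨⟨v0, hv0⟩⟩ := (hB1 u).nonempty
    obtain ⟨⟨w0, hw0⟩⟩ := (hC1 v0).nonempty
    -- inside one branch set of the second minor
    have hblob : ∀ (v : V) (hv : v ∈ B u) (a b : W) (ha : a ∈ C v) (hb : b ∈ C v),
        (G₃.induce (D u)).Reachable ⟨a, hin u v hv a ha⟩ ⟨b, hin u v hv b hb⟩ := by
      intro v hv a b ha hb
      have hr : ∀ (x y : C v), (G₃.induce (C v)).Reachable x y →
          (G₃.induce (D u)).Reachable ⟨x, hin u v hv x x.2⟩ ⟨y, hin u v hv y y.2⟩ := by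
        rintro x y ⟨p⟩
        induction p with
        | nil => exact SimpleGraph.Reachable.refl _
        | @cons x y z h p ih =>
          refine SimpleGraph.Reachable.trans (SimpleGraph.Adj.reachable ?_) ih
          exact h
      exact hr ⟨a, ha⟩ ⟨b, hb⟩ ((hC1 v).preconnected _ _)
    have hreach : ∀ (x y : B u), (G₂.induce (B u)).Reachable x y →
        ∀ (a b : W) (ha : a ∈ C x) (hb : b ∈ C y),
        (G₃.induce (D u)).Reachable ⟨a, hin u x x.2 a ha⟩ ⟨b, hin u y y.2 b hb⟩ := by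
      rintro x y ⟨p⟩
      induction p with
      | @nil x => intro a b ha hb; exact hblob x x.2 a b ha hb
      | @cons x y z h p ih =>
        intro a b ha hb
        obtain ⟨c, hc, d, hd, hcd⟩ := hC3 x y h
        refine ((hblob x x.2 a c ha hc).trans (SimpleGraph.Adj.reachable ?_)).trans
          (ih d b hd hb)
        exact hcd
    have : Nonempty (D u) := ⟨⟨w0, hin u v0 hv0 w0 hw0⟩⟩
    refine ⟨?_⟩
    rintro ⟨a, va, hva, ha⟩ ⟨b, vb, hvb, hb⟩
    exact hreach ⟨va, hva⟩ ⟨vb, hvb⟩ (hpre _ _) a b ha hb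
  · intro u u' huu
    rw [Set.disjoint_left]
    rintro w ⟨v, hv, hw⟩ ⟨v', hv', hw'⟩
    by_cases hvv : v = v'
    · subst hvv
      exact Set.disjoint_left.1 (hB2 u u' huu) hv hv'
    · exact Set.disjoint_left.1 (hC2 v v' hvv) hw hw'
  · intro u u' huu
    obtain ⟨v, hv, v', hv', hadj⟩ := hB3 u u' huu
    obtain ⟨a, ha, b, hb, hab⟩ := hC3 v v' hadj
    exact ⟨a, hin u v hv a ha, b, hin u' v' hv' b hb, hab⟩

end Pool.Agent.Work.MP_768e99_zero
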